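import Mathlib

/-!
# Homogeneous ideals, the swapping lemma
-/

set_option autoImplicit false

open MvPolynomial

namespace Pool.Agent.H687.AF

section comp

variable {σ : Type*} {R : Type*} [CommRing R]

/-- The ideal `J` is homogeneous. -/
def IsHom (J : Ideal (MvPolynomial σ R)) : Prop :=
  ∀ f ∈ J, ∀ d, homogeneousComponent d f ∈ J

lemma isHom_span {ι : Type*} {F : ι → MvPolynomial σ R} {m : ℕ}
    (hF : ∀ j, (F j).IsHomogeneous m) (s : Set ι) : IsHom (Ideal.span (F '' s)) := by
  let _ := gradedAlgebra (σ := σ) (R := R)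
  intro f hf d
  have h := Ideal.homogeneous_span (homogeneousSubmodule σ R) (F '' s) (by
    rintro _ ⟨j, -, rfl⟩
    exact ⟨m, hF j⟩)
  have h2 := h d hf
  have h3 : ((DirectSum.decompose (homogeneousSubmodule σ R) f d :
      homogeneousSubmodule σ R d) : MvPolynomial σ R) = homogeneousComponent d f :=
    decomposition.decompose'_apply f d
  rwa [h3] at h2

lemma isHom_span_range {ι : Type*} {F : ι → MvPolynomial σ R} {m : ℕ}
    (hF : ∀ j, (F j).IsHomogeneous m) : IsHom (Ideal.span (Set.range F)) := by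
  rw [← Set.image_univ]
  exact isHom_span hF _

lemma sum_comp (g : MvPolynomial σ R) :
    ∑ i ∈ Finset.range (g.totalDegree + 1), homogeneousComponent i g = g :=
  sum_homogeneousComponent g

/-- The components of a product with a homogeneous polynomial. -/
lemma comp_mul {p : MvPolynomial σ R} {N : ℕ} (hp : p.IsHomogeneous N) (h : MvPolynomial σ R)
    (e : ℕ) : homogeneousComponent e (p * h) =
      if N ≤ e then p * homogeneousComponent (e - N) h else 0 := by
  conv_lhs => rw [← sum_comp h, Finset.mul_sum, map_sum]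
  have h1 : ∀ i, homogeneousComponent e (p * homogeneousComponent i h) =
      if e = N + i then p * homogeneousComponent i h else 0 := fun i =>
    homogeneousComponent_of_mem (hp.mul (homogeneousComponent_isHomogeneous i h))
  simp only [h1]
  split_ifs with hN
  · rw [Finset.sum_eq_single (e - N)]
    · rw [if_pos (by omega)]
    · intro b _ hb
      rw [if_neg (by omega)]
    · intro hb
      rw [if_pos (by omega)]
      have : homogeneousComponent (e - N) h = 0 :=
        homogeneousComponent_eq_zero _ _ (by rw [Finset.mem_range] at hb; omega)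
      rw [this, mul_zero]
  · exact Finset.sum_eq_zero fun i _ => if_neg (by omega)

lemma comp_mul_of_le {p : MvPolynomial σ R} {N : ℕ} (hp : p.IsHomogeneous N)
    (h : MvPolynomial σ R) {e : ℕ} (he : N ≤ e) : homogeneousComponent e (p * h) =
      p * homogeneousComponent (e - N) h := by
  rw [comp_mul hp, if_pos he]

lemma comp_self {p : MvPolynomial σ R} {N : ℕ} (hp : p.IsHomogeneous N) :
    homogeneousComponent N p = p := by
  rw [homogeneousComponent_of_mem hp, if_pos rfl]

lemma comp_isHom (p : MvPolynomial σ R) (N : ℕ) : (homogeneousComponent N p).IsHomogeneous N :=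
  homogeneousComponent_isHomogeneous N p

/-- Krull intersection in the graded setting. -/
lemma mem_of_forall_pow {I : Ideal (MvPolynomial σ R)} (hI : IsHom I) {ℓ g : MvPolynomial σ R}
    (hℓ : ℓ.IsHomogeneous 1) (h : ∀ N, ∃ a ∈ I, ∃ b, g = a + ℓ ^ N * b) : g ∈ I := by
  obtain ⟨a, ha, b, hab⟩ := h (g.totalDegree + 1)
  rw [← sum_comp g]
  refine Ideal.sum_mem _ fun i hi => ?_
  rw [Finset.mem_range] at hi
  have h1 : homogeneousComponent i g = homogeneousComponent i a := by
    conv_lhs => rw [hab]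
    rw [map_add, comp_mul (hℓ.pow (g.totalDegree + 1)), if_neg (by omega), add_zero]
  rw [h1]
  exact hI a ha i

/-- The swapping lemma. -/
lemma swap {I : Ideal (MvPolynomial σ R)} (hI : IsHom I) {ℓ f : MvPolynomial σ R}
    (hℓ : ℓ.IsHomogeneous 1) (h1 : ∀ g, ℓ * g ∈ I → g ∈ I)
    (h2 : ∀ g, f * g ∈ I ⊔ Ideal.span {ℓ} → g ∈ I ⊔ Ideal.span {ℓ}) :
    (∀ g, f * g ∈ I → g ∈ I) ∧ (∀ g, ℓ * g ∈ I ⊔ Ideal.span {f} → g ∈ I ⊔ Ideal.span {f}) := by
  constructor
  · intro g hg
    apply mem_of_forall_pow hI hℓ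
    have key : ∀ N, ∃ a ∈ I, ∃ b, g = a + ℓ ^ N * b ∧ f * b ∈ I := by
      intro N
      induction N with
      | zero => exact ⟨0, I.zero_mem, g, by simp, hg⟩
      | succ N ih =>
        obtain ⟨a, ha, b, hab, hfb⟩ := ih
        have hb := h2 b (Ideal.mem_sup_left hfb)
        obtain ⟨a', ha', c, hc, hbc⟩ := Submodule.mem_sup.1 hb
        obtain ⟨b', rfl⟩ := Ideal.mem_span_singleton.1 hc
        refine ⟨a + ℓ ^ N * a', I.add_mem ha (I.mul_mem_left _ ha'), b', ?_, ?_⟩
        · rw [hab, ← hbc]; ring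
        · apply h1
          have h3 : ℓ * (f * b') = f * b - f * a' := by rw [← hbc]; ring
          rw [h3]
          exact I.sub_mem hfb (I.mul_mem_left _ ha')
    intro N
    obtain ⟨a, ha, b, hab, -⟩ := key N
    exact ⟨a, ha, b, hab⟩
  · intro g hg
    obtain ⟨a, ha, c, hc, hac⟩ := Submodule.mem_sup.1 hg
    obtain ⟨h, rfl⟩ := Ideal.mem_span_singleton.1 hc
    have h3 : f * h ∈ I ⊔ Ideal.span {ℓ} := by
      have : f * h = ℓ * g - a := by rw [← hac]; ring
      rw [this]
      exact Ideal.sub_mem _ (Ideal.mem_sup_right (Ideal.mem_span_singleton.2 ⟨g, rfl⟩))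
        (Ideal.mem_sup_left ha)
    obtain ⟨a', ha', c', hc', hac'⟩ := Submodule.mem_sup.1 (h2 h h3)
    obtain ⟨h', rfl⟩ := Ideal.mem_span_singleton.1 hc'
    have h4 : ℓ * (g - f * h') ∈ I := by
      have : ℓ * (g - f * h') = a + f * a' := by
        have e1 : ℓ * g = a + f * h := hac.symm
        have e2 : h = a' + ℓ * h' := hac'.symm
        rw [mul_sub, e1, e2]; ring
      rw [this]
      exact I.add_mem ha (I.mul_mem_left _ ha')
    have h5 := h1 _ h4
    have h6 : g = (g - f * h') + f * h' := by ring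
    rw [h6]
    exact Ideal.add_mem _ (Ideal.mem_sup_left h5)
      (Ideal.mem_sup_right (Ideal.mem_span_singleton.2 ⟨h', rfl⟩))

end comp

section nullstellensatz

variable {k : Type*} [Field k]

/-- The only common zero is the origin. -/
def NonSing {n : ℕ} {ι : Type*} (F : ι → MvPolynomial (Fin n) k) : Prop :=
  ∀ a : Fin n → k, (∀ j, eval a (F j) = 0) → a = 0

lemma exists_degree [IsAlgClosed k] {n : ℕ} {ι : Type*} {F : ι → MvPolynomial (Fin n) k}
    (hF : NonSing F) :
    ∃ N : ℕ, ∀ e, N ≤ e → ∀ g : MvPolynomial (Fin n) k, g.IsHomogeneous e →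
      g ∈ Ideal.span (Set.range F) := by
  have h1 : idealOfVars (Fin n) k ≤ (Ideal.span (Set.range F)).radical := by
    rw [← vanishingIdeal_zeroLocus_eq_radical (K := k), idealOfVars]
    refine Ideal.span_le.2 ?_
    rintro _ ⟨i, rfl⟩
    rw [SetLike.mem_coe, mem_vanishingIdeal_iff]
    intro x hx
    have h2 : x = 0 := by
      apply hF
      intro j
      have := hx (F j) (Ideal.subset_span ⟨j, rfl⟩)
      simpa [coe_aeval_eq_eval] using this
    rw [h2]
    simp
  obtain ⟨N, hN⟩ := Ideal.exists_pow_le_of_le_radical_of_fg h1 (idealOfVars_fg (Fin n) k)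
  refine ⟨N, fun e he g hg => hN ?_⟩
  rw [mem_pow_idealOfVars_iff']
  intro x hx
  exact hg.coeff_eq_zero (by omega)

end nullstellensatz

end Pool.Agent.H687.AF
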