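import Mathlib
import Pool.Agent.H687.AF.Basic

/-!
# Existence of a good hyperplane
-/

set_option autoImplicit false

open MvPolynomial

namespace Pool.Agent.H687.AF

section

variable {k : Type*} [Field k]

/-- The degree `e` piece of `S / I`. -/
noncomputable def piece {n : ℕ} (I : Ideal (MvPolynomial (Fin n) k)) (e : ℕ) :
    Submodule k (MvPolynomial (Fin n) k ⧸ I) :=
  (homogeneousSubmodule (Fin n) k e).map (Ideal.Quotient.mkₐ k I).toLinearMap

instance piece_finite {n : ℕ} (I : Ideal (MvPolynomial (Fin n) k)) (e : ℕ) :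
    Module.Finite k (piece I e) := by
  have : Module.Finite k (homogeneousSubmodule (Fin n) k e) :=
    Module.Finite.iff_fg.2 (homogeneousSubmodule_fg (Fin n) k e)
  unfold piece
  infer_instance

lemma lift_mem {σ : Type*} {R : Type*} [CommRing R] {I : Ideal (MvPolynomial σ R)} (hI : IsHom I)
    {f g : MvPolynomial σ R} {m e : ℕ} (hf : f.IsHomogeneous m) (hg : g.IsHomogeneous e)
    (hme : m ≤ e) (h : g ∈ I ⊔ Ideal.span {f}) :
    ∃ h : MvPolynomial σ R, h.IsHomogeneous (e - m) ∧ g - f * h ∈ I := by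
  obtain ⟨a, ha, c, hc, hac⟩ := Submodule.mem_sup.1 h
  obtain ⟨b, rfl⟩ := Ideal.mem_span_singleton.1 hc
  refine ⟨homogeneousComponent (e - m) b, comp_isHom _ _, ?_⟩
  have h1 : g = homogeneousComponent e a + f * homogeneousComponent (e - m) b := by
    conv_lhs => rw [← comp_self hg, ← hac, map_add, comp_mul_of_le hf b hme]
  rw [h1]
  simpa using hI a ha e

lemma span_range_succ {n : ℕ} {A : Type*} [CommRing A] (F : Fin (n + 1) → A) :
    Ideal.span (Set.range F) =
      Ideal.span (Set.range fun j : Fin n => F j.castSucc) ⊔ Ideal.span {F (Fin.last n)} := by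
  apply le_antisymm
  · refine Ideal.span_le.2 ?_
    rintro _ ⟨j, rfl⟩
    refine Fin.lastCases ?_ (fun j => ?_) j
    · exact Ideal.mem_sup_right (Ideal.subset_span rfl)
    · exact Ideal.mem_sup_left (Ideal.subset_span ⟨j, rfl⟩)
  · refine sup_le (Ideal.span_mono ?_) (Ideal.span_mono ?_)
    · rintro _ ⟨j, rfl⟩
      exact ⟨_, rfl⟩
    · rintro _ rfl
      exact ⟨_, rfl⟩

lemma finrank_piece_le [IsAlgClosed k] {n m : ℕ} (hm : 1 ≤ m)
    {F : Fin (n + 1) → MvPolynomial (Fin (n + 1)) k}
    (hF : ∀ j, (F j).IsHomogeneous m) (hns : NonSing F) :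
    ∃ b, ∀ e, Module.finrank k
      (piece (Ideal.span (Set.range fun j : Fin n => F j.castSucc)) e) ≤ b := by
  set I := Ideal.span (Set.range fun j : Fin n => F j.castSucc) with hI
  have hIhom : IsHom I := isHom_span_range fun j => hF j.castSucc
  obtain ⟨N, hN⟩ := exists_degree hns
  refine ⟨∑ e ∈ Finset.range (N + m), Module.finrank k (piece I e), fun e => ?_⟩
  induction e using Nat.strong_induction_on with
  | _ e ih =>
    rcases Nat.lt_or_ge e (N + m) with he | he
    · exact Finset.single_le_sum (f := fun e => Module.finrank k (piece I e))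
        (fun _ _ => Nat.zero_le _) (Finset.mem_range.2 he)
    · refine le_trans ?_ (ih (e - m) (by omega))
      have hle : piece I e ≤ (piece I (e - m)).map
          (LinearMap.mulLeft k (Ideal.Quotient.mk I (F (Fin.last n)))) := by
        rintro _ ⟨g, hg, rfl⟩
        have h1 := hN e (by omega) g hg
        rw [span_range_succ] at h1
        obtain ⟨h, hh, hgh⟩ := lift_mem hIhom (hF (Fin.last n)) hg (by omega) h1
        refine ⟨Ideal.Quotient.mkₐ k I h, ⟨h, hh, rfl⟩, ?_⟩
        have h2 : Ideal.Quotient.mk I g = Ideal.Quotient.mk I (F (Fin.last n) * h) :=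
          Ideal.Quotient.eq.2 hgh
        rw [map_mul] at h2
        exact h2.symm
      have h1 := Submodule.finrank_mono hle
      exact h1.trans (Submodule.finrank_map_le _ _)

/-- The linear form `∑ s^i X_i`. -/
noncomputable def LL (n : ℕ) (s : k) : MvPolynomial (Fin (n + 1)) k :=
  ∑ i : Fin (n + 1), C (s ^ (i : ℕ)) * X i

lemma LL_hom (n : ℕ) (s : k) : (LL n s).IsHomogeneous 1 := by
  refine IsHomogeneous.sum _ _ _ fun i _ => ?_
  have := (isHomogeneous_C (Fin (n + 1)) (s ^ (i : ℕ))).mul (isHomogeneous_X k i)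
  rwa [zero_add] at this

lemma eval_LL (n : ℕ) (s : k) (a : Fin (n + 1) → k) :
    eval a (LL n s) = ∑ i : Fin (n + 1), s ^ (i : ℕ) * a i := by
  simp [LL]

lemma exists_hyper [IsAlgClosed k] {n m : ℕ} (hm : 1 ≤ m)
    {F : Fin (n + 1) → MvPolynomial (Fin (n + 1)) k}
    (hF : ∀ j, (F j).IsHomogeneous m) (hns : NonSing F) :
    ∃ s : k, s ≠ 0 ∧ ∀ a : Fin (n + 1) → k, (∀ j : Fin n, eval a (F j.castSucc) = 0) →
      eval a (LL n s) = 0 → a = 0 := by
  classical
  by_contra hcon
  push Not at hcon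
  obtain ⟨b, hb⟩ := finrank_piece_le hm hF hns
  set I := Ideal.span (Set.range fun j : Fin n => F j.castSucc) with hI
  have hex : ∀ s : k, ∃ a : Fin (n + 1) → k, s ≠ 0 →
      (∀ j : Fin n, eval a (F j.castSucc) = 0) ∧ eval a (LL n s) = 0 ∧ a ≠ 0 := by
    intro s
    by_cases hs : s = 0
    · exact ⟨0, fun h => absurd hs h⟩
    · obtain ⟨a, h1, h2, h3⟩ := hcon s hs
      exact ⟨a, fun _ => ⟨h1, h2, h3⟩⟩
  choose α hα using hex
  have hlast : ∀ s : k, s ≠ 0 → eval (α s) (F (Fin.last n)) ≠ 0 := by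
    intro s hs h0
    apply (hα s hs).2.2
    apply hns
    intro j
    refine Fin.lastCases h0 (fun j => ?_) j
    exact (hα s hs).1 j
  have hI0 : ∀ s : k, s ≠ 0 → ∀ g ∈ I, eval (α s) g = 0 := by
    intro s hs g hg
    have hle : I ≤ RingHom.ker (eval (α s)) := by
      refine Ideal.span_le.2 ?_
      rintro _ ⟨j, rfl⟩
      exact (hα s hs).1 j
    exact hle hg
  obtain ⟨f, hf1, hf2⟩ := exists_seq_of_forall_finset_exists (fun s : k => s ≠ 0)
    (fun s t : k => eval (α s) (LL n t) ≠ 0) (by
      intro T hT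
      let q : k → Polynomial k := fun s => ∑ i : Fin (n + 1), Polynomial.C (α s i) *
        Polynomial.X ^ (i : ℕ)
      have hq : ∀ s t, (q s).eval t = eval (α s) (LL n t) := by
        intro s t
        rw [eval_LL]
        simp only [q, Polynomial.eval_finset_sum, Polynomial.eval_mul, Polynomial.eval_C,
          Polynomial.eval_pow, Polynomial.eval_X]
        exact Finset.sum_congr rfl fun i _ => mul_comm _ _
      have hq0 : ∀ s ∈ T, q s ≠ 0 := by
        intro s hs h0
        apply (hα s (hT s hs)).2.2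
        ext i
        have h1 := congrArg (fun p : Polynomial k => p.coeff (i : ℕ)) h0
        simp only [q, Polynomial.finset_sum_coeff, Polynomial.coeff_C_mul_X_pow,
          Polynomial.coeff_zero] at h1
        rw [Finset.sum_eq_single i] at h1
        · simpa using h1
        · intro j _ hj
          rw [if_neg]
          intro h
          exact hj (Fin.ext h.symm)
        · intro h
          exact absurd (Finset.mem_univ i) h
      have hprod : Polynomial.X * ∏ s ∈ T, q s ≠ 0 :=
        mul_ne_zero Polynomial.X_ne_zero (Finset.prod_ne_zero_iff.2 hq0)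
      obtain ⟨t, ht⟩ : ∃ t, (Polynomial.X * ∏ s ∈ T, q s).eval t ≠ 0 := by
        by_contra h
        push Not at h
        exact hprod (Polynomial.funext fun t => by rw [h t, Polynomial.eval_zero])
      rw [Polynomial.eval_mul, Polynomial.eval_X, Polynomial.eval_prod] at ht
      refine ⟨t, left_ne_zero_of_mul ht, fun s hs => ?_⟩
      rw [← hq]
      exact (Finset.prod_ne_zero_iff.1 (right_ne_zero_of_mul ht)) s hs)
  -- the forms
  let M := b + 1
  let G : Fin M → MvPolynomial (Fin (n + 1)) k := fun j =>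
    (∏ i ∈ Finset.Ioo (j : ℕ) M, LL n (f i)) ^ m * F (Fin.last n) ^ (j : ℕ)
  have hG : ∀ j, (G j).IsHomogeneous (m * b) := by
    intro j
    have h1 : (∏ i ∈ Finset.Ioo (j : ℕ) M, LL n (f i)).IsHomogeneous
        (∑ i ∈ Finset.Ioo (j : ℕ) M, 1) :=
      IsHomogeneous.prod _ _ _ fun i _ => LL_hom n (f i)
    have h2 := (h1.pow m).mul ((hF (Fin.last n)).pow (j : ℕ))
    have h3 : (∑ i ∈ Finset.Ioo (j : ℕ) M, 1) * m + m * (j : ℕ) = m * b := by
      rw [Finset.sum_const, Nat.card_Ioo, smul_eq_mul, mul_one]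
      have hj : (j : ℕ) ≤ b := Nat.lt_succ_iff.1 j.2
      have h4 : M - (j : ℕ) - 1 = b - (j : ℕ) := by
        show b + 1 - (j : ℕ) - 1 = b - (j : ℕ)
        omega
      rw [h4, mul_comm _ m, ← mul_add]
      congr 1
      omega
    rw [h3] at h2
    exact h2
  have hli : LinearIndependent k fun j : Fin M =>
      (⟨Ideal.Quotient.mkₐ k I (G j), ⟨G j, hG j, rfl⟩⟩ : piece I (m * b)) := by
    rw [Fintype.linearIndependent_iff]
    intro g hg
    have h1 : ∑ j, g j • G j ∈ I := by
      have h2 := congrArg (Submodule.subtype _) hg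
      rw [map_sum] at h2
      simp only [map_smul, Submodule.subtype_apply, map_zero] at h2
      rw [← Ideal.Quotient.eq_zero_iff_mem]
      have h3 : Ideal.Quotient.mkₐ k I (∑ j, g j • G j) = 0 := by
        rw [map_sum]
        simp only [map_smul]
        exact h2
      exact h3
    let A : Matrix (Fin M) (Fin M) k := Matrix.of fun i j => eval (α (f i)) (G j)
    have hA : A.mulVec g = 0 := by
      ext i
      have h2 := hI0 (f i) (hf1 i) _ h1
      rw [map_sum] at h2
      show ∑ j, A i j * g j = 0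
      rw [← h2]
      refine Finset.sum_congr rfl fun j _ => ?_
      show eval (α (f i)) (G j) * g j = _
      rw [smul_eval, mul_comm]
    have hAt : A.BlockTriangular id := by
      intro i j hij
      show eval (α (f i)) (G j) = 0
      have hij' : (j : ℕ) < (i : ℕ) := hij
      show eval (α (f i)) ((∏ i ∈ Finset.Ioo (j : ℕ) M, LL n (f i)) ^ m *
        F (Fin.last n) ^ (j : ℕ)) = 0
      rw [map_mul, map_pow, map_prod, Finset.prod_eq_zero (i := (i : ℕ))
        (Finset.mem_Ioo.2 ⟨hij', i.2⟩) (hα (f i) (hf1 i)).2.1, zero_pow (by omega), zero_mul]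
    have hdet : A.det ≠ 0 := by
      rw [Matrix.det_of_upperTriangular hAt]
      refine Finset.prod_ne_zero_iff.2 fun i _ => ?_
      show eval (α (f i)) ((∏ i' ∈ Finset.Ioo (i : ℕ) M, LL n (f i')) ^ m *
        F (Fin.last n) ^ (i : ℕ)) ≠ 0
      rw [map_mul, map_pow, map_prod, map_pow]
      refine mul_ne_zero (pow_ne_zero _ (Finset.prod_ne_zero_iff.2 fun i' hi' => ?_))
        (pow_ne_zero _ (hlast _ (hf1 i)))
      exact hf2 _ _ (Finset.mem_Ioo.1 hi').1
    have := Matrix.eq_zero_of_mulVec_eq_zero hdet hA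
    intro i
    rw [this]
    rfl
  have h1 := hli.fintype_card_le_finrank
  rw [Fintype.card_fin] at h1
  have h2 := hb (m * b)
  have : M = b + 1 := rfl
  omega

/-- A good hyperplane `X_last = ∑ v_i X_i`. -/
lemma exists_v [IsAlgClosed k] {n m : ℕ} (hm : 1 ≤ m)
    {F : Fin (n + 1) → MvPolynomial (Fin (n + 1)) k}
    (hF : ∀ j, (F j).IsHomogeneous m) (hns : NonSing F) :
    ∃ v : Fin n → k, ∀ a : Fin (n + 1) → k, (∀ j : Fin n, eval a (F j.castSucc) = 0) →
      a (Fin.last n) = ∑ i : Fin n, v i * a i.castSucc → a = 0 := by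
  obtain ⟨s, hs, h⟩ := exists_hyper hm hF hns
  refine ⟨fun i => -(s ^ (i : ℕ)) / s ^ n, fun a ha hl => h a ha ?_⟩
  rw [eval_LL, Fin.sum_univ_castSucc, hl]
  simp only [Fin.val_castSucc, Fin.val_last]
  rw [Finset.mul_sum, ← Finset.sum_add_distrib]
  refine Finset.sum_eq_zero fun i _ => ?_
  have : s ^ n ≠ 0 := pow_ne_zero _ hs
  field_simp
  ring

end

end Pool.Agent.H687.AF
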