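import Mathlib
import Pool.Agent.H687.AF.Hyper

/-!
# Complete intersections: socle and Jacobian determinant
-/

set_option autoImplicit false

open MvPolynomial

namespace Pool.Agent.H687.AF

section

variable {k : Type*} [CommRing k]

/-- The Jacobian determinant. -/
noncomputable def jac {n : ℕ} (F : Fin n → MvPolynomial (Fin n) k) : MvPolynomial (Fin n) k :=
  Matrix.det (Matrix.of fun i j => pderiv i (F j))

/-- The statement proved by induction. -/
structure Good (m : ℕ) {n : ℕ} (F : Fin n → MvPolynomial (Fin n) k) : Prop where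
  top : ∀ e, n * (m - 1) < e → ∀ g : MvPolynomial (Fin n) k, g.IsHomogeneous e →
    g ∈ Ideal.span (Set.range F)
  soc : ∀ g : MvPolynomial (Fin n) k, g.IsHomogeneous (n * (m - 1)) →
    ∃ c : k, g - C c * jac F ∈ Ideal.span (Set.range F)
  nz : jac F ∉ Ideal.span (Set.range F)
  reg : ∀ i g, F i * g ∈ Ideal.span (F '' {j | j < i}) → g ∈ Ideal.span (F '' {j | j < i})

/-! ### restriction to a hyperplane -/

section restr

variable {n : ℕ} (v : Fin n → k)

/-- The linear form `∑ v_i X_i`. -/
noncomputable def Lv : MvPolynomial (Fin n) k := ∑ i, C (v i) * X i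

/-- Restriction to the hyperplane. -/
noncomputable def phi : MvPolynomial (Fin (n + 1)) k →ₐ[k] MvPolynomial (Fin n) k :=
  aeval (Fin.lastCases (Lv v) X)

/-- The section. -/
noncomputable def psi (n : ℕ) (k : Type*) [CommRing k] :
    MvPolynomial (Fin n) k →ₐ[k] MvPolynomial (Fin (n + 1)) k :=
  rename Fin.castSucc

/-- The equation of the hyperplane. -/
noncomputable def ell : MvPolynomial (Fin (n + 1)) k :=
  X (Fin.last n) - ∑ i : Fin n, C (v i) * X i.castSucc

lemma phi_X_castSucc (i : Fin n) : phi v (X i.castSucc) = X i := by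
  simp [phi]

lemma phi_X_last : phi v (X (Fin.last n)) = Lv v := by
  simp [phi]

lemma phi_psi (g : MvPolynomial (Fin n) k) : phi v (psi n k g) = g := by
  have h : (phi v).comp (psi n k) = AlgHom.id k _ := by
    apply MvPolynomial.algHom_ext
    intro i
    simp [psi, phi]
  exact DFunLike.congr_fun h g

lemma phi_ell : phi v (ell v) = 0 := by
  simp [ell, phi_X_last, phi_X_castSucc, Lv, ← algebraMap_eq]

lemma phi_surjective : Function.Surjective (phi v) := fun g => ⟨_, phi_psi v g⟩

lemma psi_phi (g : MvPolynomial (Fin (n + 1)) k) :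
    g - psi n k (phi v g) ∈ Ideal.span {ell v} := by
  rw [← Ideal.Quotient.eq]
  have h : (Ideal.Quotient.mkₐ k (Ideal.span {ell v})) =
      (Ideal.Quotient.mkₐ k (Ideal.span {ell v})).comp ((psi n k).comp (phi v)) := by
    apply MvPolynomial.algHom_ext
    intro i
    refine Fin.lastCases ?_ (fun i => ?_) i
    · simp only [AlgHom.comp_apply, phi_X_last]
      refine Ideal.Quotient.eq.2 (Ideal.mem_span_singleton'.2 ⟨1, ?_⟩)
      simp [ell, Lv, psi]
    · simp only [AlgHom.comp_apply, phi_X_castSucc]
      simp [psi]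
  exact DFunLike.congr_fun h g

lemma mem_ker_phi (g : MvPolynomial (Fin (n + 1)) k) :
    phi v g = 0 ↔ g ∈ Ideal.span {ell v} := by
  constructor
  · intro h
    have := psi_phi v g
    rwa [h, map_zero, sub_zero] at this
  · intro h
    obtain ⟨c, rfl⟩ := Ideal.mem_span_singleton.1 h
    rw [map_mul, phi_ell, zero_mul]

lemma mem_restr {ι : Type*} (G : ι → MvPolynomial (Fin (n + 1)) k) (s : Set ι)
    (g : MvPolynomial (Fin (n + 1)) k) :
    g ∈ Ideal.span (G '' s) ⊔ Ideal.span {ell v} ↔
      phi v g ∈ Ideal.span ((fun j => phi v (G j)) '' s) := by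
  have h1 : Ideal.span ((fun j => phi v (G j)) '' s) =
      Ideal.map (phi v).toRingHom (Ideal.span (G '' s)) := by
    rw [Ideal.map_span, Set.image_image]
    rfl
  have h2 := Ideal.comap_map_of_surjective (phi v).toRingHom (phi_surjective v)
    (Ideal.span (G '' s))
  have h3 : Ideal.comap (phi v).toRingHom ⊥ = Ideal.span {ell v} := by
    ext x
    rw [Ideal.mem_comap, Ideal.mem_bot, ← mem_ker_phi]
    rfl
  rw [h3] at h2
  rw [h1, ← h2, Ideal.mem_comap]
  rfl

lemma ell_hom : (ell v).IsHomogeneous 1 := by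
  refine (isHomogeneous_X k _).sub (IsHomogeneous.sum _ _ _ fun i _ => ?_)
  have := (isHomogeneous_C (Fin (n + 1)) (v i)).mul (isHomogeneous_X k i.castSucc)
  rwa [zero_add] at this

lemma Lv_hom : (Lv v).IsHomogeneous 1 := by
  refine IsHomogeneous.sum _ _ _ fun i _ => ?_
  have := (isHomogeneous_C (Fin n) (v i)).mul (isHomogeneous_X k i)
  rwa [zero_add] at this

lemma ell_ne_zero [Nontrivial k] : ell v ≠ 0 := by
  intro h
  have h1 := congrArg (eval (Fin.lastCases (1 : k) (fun _ => 0) : Fin (n + 1) → k)) h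
  simp [ell] at h1

lemma phi_hom {g : MvPolynomial (Fin (n + 1)) k} {e : ℕ} (hg : g.IsHomogeneous e) :
    (phi v g).IsHomogeneous e := by
  have h := hg.aeval (Fin.lastCases (Lv v) X : Fin (n + 1) → MvPolynomial (Fin n) k) (n := 1) (by
    intro i
    refine Fin.lastCases ?_ (fun i => ?_) i
    · simpa using Lv_hom v
    · simpa using isHomogeneous_X k i)
  rwa [one_mul] at h

lemma eval_phi (a : Fin n → k) (g : MvPolynomial (Fin (n + 1)) k) :
    eval a (phi v g) = eval (Fin.lastCases (∑ i, v i * a i) a : Fin (n + 1) → k) g := by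
  have h : ((aeval a : MvPolynomial (Fin n) k →ₐ[k] k).comp (phi v)) =
      (aeval (Fin.lastCases (∑ i, v i * a i) a : Fin (n + 1) → k)) := by
    apply MvPolynomial.algHom_ext
    intro i
    refine Fin.lastCases ?_ (fun i => ?_) i
    · simp [phi, Lv]
    · simp [phi]
  have := DFunLike.congr_fun h g
  simpa [coe_aeval_eq_eval] using this

/-- chain rule -/
lemma pderiv_phi (i : Fin n) (g : MvPolynomial (Fin (n + 1)) k) :
    pderiv i (phi v g) = phi v (pderiv i.castSucc g + C (v i) * pderiv (Fin.last n) g) := by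
  induction g using MvPolynomial.induction_on with
  | C a => simp [phi]
  | add p q hp hq => simp only [map_add, hp, hq, mul_add]; ring
  | mul_X p j hp =>
    rw [map_mul, (pderiv i).leibniz, hp]
    simp only [(pderiv i.castSucc).leibniz, (pderiv (Fin.last n)).leibniz, map_add, map_mul,
      smul_eq_mul]
    have hX : pderiv i (phi v (X j)) =
        phi v (pderiv i.castSucc (X j) + C (v i) * pderiv (Fin.last n) (X j)) := by
      refine Fin.lastCases ?_ (fun j => ?_) j
      · rw [phi_X_last, pderiv_X_self]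
        rw [pderiv_X_of_ne (by exact (Fin.castSucc_lt_last i).ne')]
        simp only [Lv, map_sum, (pderiv i).leibniz, smul_eq_mul, pderiv_C, mul_zero, add_zero]
        rw [Finset.sum_eq_single i]
        · simp [← algebraMap_eq]
        · intro b _ hb
          rw [pderiv_X_of_ne hb, mul_zero]
        · intro h; exact absurd (Finset.mem_univ i) h
      · rw [phi_X_castSucc]
        rw [pderiv_X_of_ne (i := Fin.last n) (by exact (Fin.castSucc_lt_last j).ne)]
        by_cases hij : j = i
        · subst hij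
          simp
        · rw [pderiv_X_of_ne hij, pderiv_X_of_ne (by
            intro h; exact hij (Fin.castSucc_injective _ h))]
          simp
    rw [hX]
    simp only [map_add, map_mul]
    ring

end restr

/-! ### the Jacobian identity -/

lemma det_hom {N : ℕ} {σ : Type*} {e : ℕ} (M : Matrix (Fin N) (Fin N) (MvPolynomial σ k))
    (hM : ∀ i j, (M i j).IsHomogeneous e) : (Matrix.det M).IsHomogeneous (N * e) := by
  rw [Matrix.det_apply]
  refine IsHomogeneous.sum _ _ _ fun s _ => ?_
  have h1 : (∏ i, M (s i) i).IsHomogeneous (∑ _i : Fin N, e) :=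
    IsHomogeneous.prod _ _ _ fun i _ => hM _ _
  rw [Finset.sum_const, Finset.card_univ, Fintype.card_fin, smul_eq_mul] at h1
  rcases Int.units_eq_one_or (Equiv.Perm.sign s) with h | h
  · rw [h, one_smul]; exact h1
  · rw [h, Units.neg_smul, one_smul]; exact h1.neg

section jacid

variable {n : ℕ} (v : Fin n → k) (F : Fin (n + 1) → MvPolynomial (Fin (n + 1)) k)

/-- The lifted Jacobian of the restriction. -/
noncomputable def jac' : MvPolynomial (Fin (n + 1)) k :=
  Matrix.det (Matrix.of fun i j : Fin n => pderiv i.castSucc (F j.castSucc) +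
    C (v i) * pderiv (Fin.last n) (F j.castSucc))

lemma phi_jac' : phi v (jac' v F) = jac fun j : Fin n => phi v (F j.castSucc) := by
  rw [jac', jac, AlgHom.map_det]
  congr 1
  ext1 i j
  simp only [AlgHom.mapMatrix_apply, Matrix.map_apply, Matrix.of_apply]
  rw [pderiv_phi]

lemma jac'_hom {m : ℕ} (hF : ∀ j, (F j).IsHomogeneous m) :
    (jac' v F).IsHomogeneous (n * (m - 1)) := by
  refine det_hom _ fun i j => ?_
  refine ((hF _).pderiv).add ?_
  have := (isHomogeneous_C (Fin (n + 1)) (v i)).mul ((hF j.castSucc).pderiv (i := Fin.last n))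
  rwa [zero_add] at this

lemma jac_hom {m : ℕ} {F : Fin n → MvPolynomial (Fin n) k} (hF : ∀ j, (F j).IsHomogeneous m) :
    (jac F).IsHomogeneous (n * (m - 1)) :=
  det_hom _ fun _ _ => (hF _).pderiv

/-- The transformation matrix. -/
noncomputable def TT : Matrix (Fin (n + 1)) (Fin (n + 1)) (MvPolynomial (Fin (n + 1)) k) :=
  Matrix.of fun i j => Fin.lastCases (X j)
    (fun i => (if j = i.castSucc then 1 else 0) + (if j = Fin.last n then C (v i) else 0)) i

lemma det_TT : (TT v).det = ell v := by
  rw [← Matrix.det_submatrix_equiv_self (finSumFinEquiv : Fin n ⊕ Fin 1 ≃ Fin (n + 1))]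
  have h : (TT v).submatrix finSumFinEquiv finSumFinEquiv =
      Matrix.fromBlocks 1 (Matrix.of fun i _ => C (v i))
        (Matrix.of fun _ j => X (Fin.castSucc j)) (Matrix.of fun _ _ => X (Fin.last n)) := by
    ext1 i j
    rcases i with i | i <;> rcases j with j | j
    · simp only [Matrix.submatrix_apply, Matrix.fromBlocks_apply₁₁]
      show (TT v) (Fin.castSucc i) (Fin.castSucc j) = _
      simp only [TT, Matrix.of_apply, Fin.lastCases_castSucc, Matrix.one_apply]
      rw [if_neg (Fin.castSucc_lt_last j).ne, add_zero]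
      by_cases hij : i = j
      · subst hij; simp
      · rw [if_neg hij, if_neg (fun h => hij (Fin.castSucc_injective _ h).symm)]
    · simp only [Matrix.submatrix_apply, Matrix.fromBlocks_apply₁₂]
      have hj : finSumFinEquiv (Sum.inr j : Fin n ⊕ Fin 1) = Fin.last n := by
        rw [Subsingleton.elim j 0]; rfl
      rw [hj]
      show (TT v) (Fin.castSucc i) (Fin.last n) = _
      simp only [TT, Matrix.of_apply, Fin.lastCases_castSucc]
      rw [if_neg (Fin.castSucc_lt_last i).ne']
      simp
    · simp only [Matrix.submatrix_apply, Matrix.fromBlocks_apply₂₁]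
      have hi : finSumFinEquiv (Sum.inr i : Fin n ⊕ Fin 1) = Fin.last n := by
        rw [Subsingleton.elim i 0]; rfl
      rw [hi]
      show (TT v) (Fin.last n) (Fin.castSucc j) = _
      simp only [TT, Matrix.of_apply, Fin.lastCases_last]
    · simp only [Matrix.submatrix_apply, Matrix.fromBlocks_apply₂₂]
      have hi : finSumFinEquiv (Sum.inr i : Fin n ⊕ Fin 1) = Fin.last n := by
        rw [Subsingleton.elim i 0]; rfl
      have hj : finSumFinEquiv (Sum.inr j : Fin n ⊕ Fin 1) = Fin.last n := by
        rw [Subsingleton.elim j 0]; rfl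
      rw [hi, hj]
      simp only [TT, Matrix.of_apply, Fin.lastCases_last]
  rw [h, Matrix.det_fromBlocks_one₁₁]
  rw [Matrix.det_fin_one]
  simp only [Matrix.sub_apply, Matrix.mul_apply, Matrix.of_apply, ell]
  congr 1
  exact Finset.sum_congr rfl fun i _ => mul_comm _ _

lemma TT_mul_castSucc (i : Fin n) (j : Fin (n + 1)) :
    (TT v * Matrix.of fun i j => pderiv i (F j)) i.castSucc j =
      pderiv i.castSucc (F j) + C (v i) * pderiv (Fin.last n) (F j) := by
  rw [Matrix.mul_apply]
  simp only [TT, Matrix.of_apply, Fin.lastCases_castSucc, add_mul, Finset.sum_add_distrib,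
    ite_mul, one_mul, zero_mul, Finset.sum_ite_eq', Finset.mem_univ, if_true]

lemma TT_mul_last {m : ℕ} (hF : ∀ j, (F j).IsHomogeneous m) (j : Fin (n + 1)) :
    (TT v * Matrix.of fun i j => pderiv i (F j)) (Fin.last n) j = (m : MvPolynomial _ k) * F j := by
  rw [Matrix.mul_apply]
  simp only [TT, Matrix.of_apply, Fin.lastCases_last]
  rw [(hF j).sum_X_mul_pderiv]
  simp

/-- The key identity. -/
lemma jac_identity {m : ℕ} (hF : ∀ j, (F j).IsHomogeneous m) :
    ell v * jac F - (m : MvPolynomial _ k) * F (Fin.last n) * jac' v F ∈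
      Ideal.span (Set.range fun j : Fin n => F j.castSucc) := by
  have h1 : ell v * jac F = (TT v * Matrix.of fun i j => pderiv i (F j)).det := by
    rw [Matrix.det_mul, det_TT]; rfl
  rw [h1, Matrix.det_succ_row _ (Fin.last n), Fin.sum_univ_castSucc]
  have h2 : ((-1 : MvPolynomial (Fin (n + 1)) k) ^ ((Fin.last n : ℕ) + (Fin.last n : ℕ))) *
      (TT v * Matrix.of fun i j => pderiv i (F j)) (Fin.last n) (Fin.last n) *
      ((TT v * Matrix.of fun i j => pderiv i (F j)).submatrix (Fin.last n).succAbove
        (Fin.last n).succAbove).det =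
      (m : MvPolynomial _ k) * F (Fin.last n) * jac' v F := by
    rw [← two_mul, pow_mul, neg_one_sq, one_pow, one_mul, TT_mul_last v F hF]
    congr 1
    rw [jac']
    congr 1
    ext1 i j
    simp only [Matrix.submatrix_apply, Fin.succAbove_last]
    rw [TT_mul_castSucc]
    rfl
  rw [h2, add_sub_cancel_right]
  refine Ideal.sum_mem _ fun j _ => ?_
  refine Ideal.mul_mem_right _ _ (Ideal.mul_mem_left _ _ ?_)
  rw [TT_mul_last v F hF]
  exact Ideal.mul_mem_left _ _ (Ideal.subset_span ⟨j, rfl⟩)

end jacid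

end

section

variable {k : Type*} [Field k]

/-! ### the induction -/

lemma good_zero {m : ℕ} (F : Fin 0 → MvPolynomial (Fin 0) k) : Good m F := by
  have hspan : Ideal.span (Set.range F) = ⊥ := by
    rw [Set.range_eq_empty, Ideal.span_empty]
  have hjac : jac F = 1 := by
    simp [jac]
  refine ⟨?_, ?_, ?_, fun i => i.elim0⟩
  · intro e he g hg
    have : g = 0 := by
      rw [eq_C_of_isEmpty g]
      have h0 : coeff 0 g = 0 := hg.coeff_eq_zero (by simp; omega)
      rw [h0, C_0]
    rw [this]
    exact Ideal.zero_mem _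
  · intro g hg
    refine ⟨coeff 0 g, ?_⟩
    rw [hjac, mul_one, ← eq_C_of_isEmpty g, sub_self]
    exact Ideal.zero_mem _
  · rw [hspan, hjac]
    simp

lemma image_castSucc {n : ℕ} {A : Type*} (F : Fin (n + 1) → A) (i : Fin n) :
    F '' {j | j < i.castSucc} = (fun j : Fin n => F j.castSucc) '' {j | j < i} := by
  ext x
  constructor
  · rintro ⟨j, hj, rfl⟩
    have hj' : j < i.castSucc := hj
    have h1 : j ≠ Fin.last n := by
      rintro rfl
      exact absurd (Fin.le_last i.castSucc) (not_le.2 hj')
    obtain ⟨j', rfl⟩ := Fin.exists_castSucc_eq.2 h1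
    exact ⟨j', Fin.castSucc_lt_castSucc_iff.1 hj', rfl⟩
  · rintro ⟨j, hj, rfl⟩
    exact ⟨j.castSucc, Fin.castSucc_lt_castSucc_iff.2 hj, rfl⟩

lemma image_last {n : ℕ} {A : Type*} (F : Fin (n + 1) → A) :
    F '' {j | j < Fin.last n} = Set.range fun j : Fin n => F j.castSucc := by
  ext x
  constructor
  · rintro ⟨j, hj, rfl⟩
    have hj' : j < Fin.last n := hj
    obtain ⟨j', rfl⟩ := Fin.exists_castSucc_eq.2 hj'.ne
    exact ⟨j', rfl⟩
  · rintro ⟨j, rfl⟩
    exact ⟨j.castSucc, Fin.castSucc_lt_last j, rfl⟩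

/-- `ℓ` and the forms: consequences of the swapping lemma. -/
lemma reg_chain {n m : ℕ} (v : Fin n → k) {G : Fin n → MvPolynomial (Fin (n + 1)) k}
    (hG : ∀ j, (G j).IsHomogeneous m)
    (hreg : ∀ i g, phi v (G i) * g ∈ Ideal.span ((fun j => phi v (G j)) '' {j | j < i}) →
      g ∈ Ideal.span ((fun j => phi v (G j)) '' {j | j < i})) :
    (∀ i g, G i * g ∈ Ideal.span (G '' {j | j < i}) → g ∈ Ideal.span (G '' {j | j < i})) ∧
    (∀ g, ell v * g ∈ Ideal.span (Set.range G) → g ∈ Ideal.span (Set.range G)) := by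
  have key : ∀ i : ℕ, i ≤ n → ∀ g, ell v * g ∈ Ideal.span (G '' {j | (j : ℕ) < i}) →
      g ∈ Ideal.span (G '' {j | (j : ℕ) < i}) := by
    intro i
    induction i with
    | zero =>
      intro _ g hg
      have : {j : Fin n | (j : ℕ) < 0} = ∅ := by ext; simp
      rw [this, Set.image_empty, Ideal.span_empty, Ideal.mem_bot] at hg ⊢
      exact (mul_eq_zero.1 hg).resolve_left (ell_ne_zero v)
    | succ i ih =>
      intro hi g hg
      have hset : G '' {j : Fin n | (j : ℕ) < i + 1} =
          (G '' {j : Fin n | (j : ℕ) < i}) ∪ {G ⟨i, hi⟩} := by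
        have : {j : Fin n | (j : ℕ) < i + 1} = {j : Fin n | (j : ℕ) < i} ∪ {⟨i, hi⟩} := by
          ext j
          simp only [Set.mem_ofPred_eq, Set.mem_union, Set.mem_singleton_iff, Fin.ext_iff]
          omega
        rw [this, Set.image_union, Set.image_singleton]
      rw [hset, Ideal.span_union] at hg ⊢
      refine (swap (isHom_span hG _) (ell_hom v) (ih (by omega)) ?_).2 g hg
      intro g' hg'
      rw [mem_restr] at hg' ⊢
      rw [map_mul] at hg'
      exact hreg ⟨i, hi⟩ _ hg'
  constructor
  · intro i g hg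
    refine (swap (isHom_span hG {j : Fin n | j < i}) (ell_hom v)
      (key (i : ℕ) i.2.le) ?_).1 g hg
    intro g' hg'
    rw [mem_restr] at hg' ⊢
    rw [map_mul] at hg'
    exact hreg i _ hg'
  · intro g hg
    have h1 := key n le_rfl g
    have h2 : {j : Fin n | (j : ℕ) < n} = Set.univ := by
      ext j; simp
    rw [h2, Set.image_univ] at h1
    exact h1 hg

/-- Multiplication by a form on pieces. -/
noncomputable def mulP {n : ℕ} (I : Ideal (MvPolynomial (Fin n) k)) {p : MvPolynomial (Fin n) k}
    {m : ℕ} (hp : p.IsHomogeneous m) (e : ℕ) : piece I e →ₗ[k] piece I (e + m) :=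
  LinearMap.restrict (LinearMap.mulLeft k (Ideal.Quotient.mk I p)) (by
    rintro _ ⟨g, hg, rfl⟩
    refine ⟨p * g, ?_, ?_⟩
    · have := hp.mul hg
      rw [add_comm] at this
      exact this
    · show Ideal.Quotient.mk I (p * g) = Ideal.Quotient.mk I p * Ideal.Quotient.mk I g
      rw [map_mul])

lemma mulP_injective {n : ℕ} (I : Ideal (MvPolynomial (Fin n) k)) {p : MvPolynomial (Fin n) k}
    {m : ℕ} (hp : p.IsHomogeneous m) (e : ℕ)
    (h : ∀ g : MvPolynomial (Fin n) k, g.IsHomogeneous e → p * g ∈ I → g ∈ I) :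
    Function.Injective (mulP I hp e) := by
  rw [injective_iff_map_eq_zero]
  rintro ⟨_, g, hg, rfl⟩ hx
  have h1 := congrArg Subtype.val hx
  have h2 : Ideal.Quotient.mk I p * Ideal.Quotient.mk I g = 0 := h1
  rw [← map_mul, Ideal.Quotient.eq_zero_iff_mem] at h2
  apply Subtype.ext
  show Ideal.Quotient.mk I g = 0
  rw [Ideal.Quotient.eq_zero_iff_mem]
  exact h g hg h2

lemma mulP_surjective {n : ℕ} (I : Ideal (MvPolynomial (Fin n) k)) {p : MvPolynomial (Fin n) k}
    {m : ℕ} (hp : p.IsHomogeneous m) (e : ℕ)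
    (h : ∀ g : MvPolynomial (Fin n) k, g.IsHomogeneous (e + m) →
      ∃ h : MvPolynomial (Fin n) k, h.IsHomogeneous e ∧ g - p * h ∈ I) :
    Function.Surjective (mulP I hp e) := by
  rintro ⟨_, g, hg, rfl⟩
  obtain ⟨h', hh, hgh⟩ := h g hg
  refine ⟨⟨_, h', hh, rfl⟩, ?_⟩
  apply Subtype.ext
  show Ideal.Quotient.mk I p * Ideal.Quotient.mk I h' = Ideal.Quotient.mk I g
  rw [← map_mul]
  exact (Ideal.Quotient.eq.2 hgh).symm

lemma mem_of_mulP_surjective {n : ℕ} (I : Ideal (MvPolynomial (Fin n) k))
    {p : MvPolynomial (Fin n) k} {m : ℕ} (hp : p.IsHomogeneous m) (e : ℕ)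
    (h : Function.Injective (mulP I hp e)) (g : MvPolynomial (Fin n) k) (hg : g.IsHomogeneous e)
    (hpg : p * g ∈ I) : g ∈ I := by
  have h1 : mulP I hp e ⟨Ideal.Quotient.mk I g, g, hg, rfl⟩ = 0 := by
    apply Subtype.ext
    show Ideal.Quotient.mk I p * Ideal.Quotient.mk I g = 0
    rw [← map_mul, Ideal.Quotient.eq_zero_iff_mem]
    exact hpg
  have h2 := (injective_iff_map_eq_zero _).1 h _ h1
  have h3 := congrArg Subtype.val h2
  exact Ideal.Quotient.eq_zero_iff_mem.1 h3

theorem good_succ [IsAlgClosed k] [CharZero k] {n m : ℕ} (hm : 1 ≤ m)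
    (ih : ∀ F : Fin n → MvPolynomial (Fin n) k, (∀ j, (F j).IsHomogeneous m) → NonSing F →
      Good m F)
    (F : Fin (n + 1) → MvPolynomial (Fin (n + 1)) k) (hF : ∀ j, (F j).IsHomogeneous m)
    (hns : NonSing F) : Good m F := by
  obtain ⟨v, hv⟩ := exists_v hm hF hns
  set G : Fin n → MvPolynomial (Fin (n + 1)) k := fun j => F j.castSucc with hGdef
  have hG : ∀ j, (G j).IsHomogeneous m := fun j => hF _
  have hbar : Good m fun j => phi v (G j) := by
    apply ih _ (fun j => phi_hom v (hG j))
    intro a ha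
    have h1 := hv (Fin.lastCases (∑ i, v i * a i) a) (fun j => by
      rw [← eval_phi]; exact ha j) (by simp)
    funext i
    have := congrFun h1 i.castSucc
    simpa using this
  set I := Ideal.span (Set.range G) with hI
  have hIhom : IsHom I := isHom_span_range hG
  obtain ⟨hreg1, hregL⟩ := reg_chain v hG hbar.reg
  have hrestr : ∀ g, g ∈ I ⊔ Ideal.span {ell v} ↔
      phi v g ∈ Ideal.span (Set.range fun j => phi v (G j)) := by
    intro g
    have := mem_restr v G Set.univ g
    rwa [Set.image_univ, Set.image_univ] at this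
  have hregLpow : ∀ N g, ell v ^ N * g ∈ I → g ∈ I := by
    intro N
    induction N with
    | zero => intro g hg; simpa using hg
    | succ N ihN =>
      intro g hg
      apply ihN
      apply hregL
      rwa [← mul_assoc, ← pow_succ']
  set D' := n * (m - 1) with hD'
  have htop : ∀ t, ∀ g : MvPolynomial (Fin (n + 1)) k, g.IsHomogeneous (D' + t) →
      ∃ h : MvPolynomial (Fin (n + 1)) k, h.IsHomogeneous D' ∧ g - ell v ^ t * h ∈ I := by
    intro t
    induction t with
    | zero =>
      intro g hg
      exact ⟨g, hg, by simp⟩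
    | succ t iht =>
      intro g hg
      have h1 : g ∈ I ⊔ Ideal.span {ell v} := by
        rw [hrestr]
        exact hbar.top (D' + (t + 1)) (by omega) _ (phi_hom v hg)
      obtain ⟨h, hh, hgh⟩ := lift_mem hIhom (ell_hom v) hg (by omega) h1
      have hh' : h.IsHomogeneous (D' + t) := hh
      obtain ⟨h', hh', hhh⟩ := iht h hh'
      refine ⟨h', hh', ?_⟩
      have : g - ell v ^ (t + 1) * h' = (g - ell v * h) + ell v * (h - ell v ^ t * h') := by ring
      rw [this]
      exact I.add_mem hgh (I.mul_mem_left _ hhh)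
  obtain ⟨N, hN⟩ := exists_degree hns
  have hspan : Ideal.span (Set.range F) = I ⊔ Ideal.span {F (Fin.last n)} := span_range_succ F
  have hsurj : ∀ g : MvPolynomial (Fin (n + 1)) k, g.IsHomogeneous (D' + m) →
      ∃ h : MvPolynomial (Fin (n + 1)) k, h.IsHomogeneous D' ∧ g - F (Fin.last n) * h ∈ I := by
    intro g hg
    have h1 : (ell v ^ N * g).IsHomogeneous (D' + m + N) := by
      have := ((ell_hom v).pow N).mul hg
      rwa [one_mul, add_comm N] at this
    have h2 := hN (D' + m + N) (by omega) _ h1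
    rw [hspan] at h2
    obtain ⟨h, hh, hgh⟩ := lift_mem hIhom (hF (Fin.last n)) h1 (by omega) h2
    have hh1 : h.IsHomogeneous (D' + N) := by
      have : D' + m + N - m = D' + N := by omega
      rwa [this] at hh
    obtain ⟨h', hh', hhh⟩ := htop N h hh1
    refine ⟨h', hh', ?_⟩
    apply hregLpow N
    have : ell v ^ N * (g - F (Fin.last n) * h') =
      (ell v ^ N * g - F (Fin.last n) * h) + F (Fin.last n) * (h - ell v ^ N * h') := by ring
    rw [this]
    exact I.add_mem hgh (I.mul_mem_left _ hhh)
  have hℓm : (ell v ^ m).IsHomogeneous m := by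
    have := (ell_hom v).pow m
    rwa [one_mul] at this
  have hfin : Module.finrank k (piece I D') = Module.finrank k (piece I (D' + m)) :=
    LinearEquiv.finrank_eq (LinearEquiv.ofBijective (mulP I hℓm D')
      ⟨mulP_injective I hℓm D' fun g _ => hregLpow m g, mulP_surjective I hℓm D' (htop m)⟩)
  have hinj : Function.Injective (mulP I (hF (Fin.last n)) D') :=
    (LinearMap.injective_iff_surjective_of_finrank_eq_finrank hfin).2
      (mulP_surjective I (hF (Fin.last n)) D' hsurj)
  have hinjD := mem_of_mulP_surjective I (hF (Fin.last n)) D' hinj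
  have hinjh : ∀ e, ∀ g : MvPolynomial (Fin (n + 1)) k, g.IsHomogeneous e →
      F (Fin.last n) * g ∈ I → g ∈ I := by
    intro e g hg hFg
    rcases Nat.le_total e D' with he | he
    · apply hregLpow (D' - e)
      apply hinjD
      · have := ((ell_hom v).pow (D' - e)).mul hg
        rwa [one_mul, Nat.sub_add_cancel he] at this
      · have : F (Fin.last n) * (ell v ^ (D' - e) * g) =
          ell v ^ (D' - e) * (F (Fin.last n) * g) := by ring
        rw [this]
        exact I.mul_mem_left _ hFg
    · obtain ⟨t, rfl⟩ := Nat.exists_eq_add_of_le he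
      obtain ⟨h, hh, hgh⟩ := htop t g hg
      have h1 : h ∈ I := by
        apply hinjD h hh
        apply hregLpow t
        have : ell v ^ t * (F (Fin.last n) * h) =
          F (Fin.last n) * g - F (Fin.last n) * (g - ell v ^ t * h) := by ring
        rw [this]
        exact I.sub_mem hFg (I.mul_mem_left _ hgh)
      have h2 : g = (g - ell v ^ t * h) + ell v ^ t * h := by ring
      rw [h2]
      exact I.add_mem hgh (I.mul_mem_left _ h1)
  have hregF : ∀ g, F (Fin.last n) * g ∈ I → g ∈ I := by
    intro g hg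
    rw [← sum_comp g]
    refine I.sum_mem fun i _ => ?_
    apply hinjh i _ (comp_isHom g i)
    have := hIhom _ hg (m + i)
    rwa [comp_mul_of_le (hF (Fin.last n)) g (by omega), Nat.add_sub_cancel_left] at this
  have hid := jac_identity v F hF
  have hm0 : (m : k) ≠ 0 := by
    rw [Nat.cast_ne_zero]; omega
  have hmC : (m : MvPolynomial (Fin (n + 1)) k) = C (m : k) := (map_natCast C m).symm
  refine ⟨?_, ?_, ?_, ?_⟩
  · intro e he g hg
    have he' : D' + m ≤ e := by
      have : (n + 1) * (m - 1) = n * (m - 1) + (m - 1) := by ring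
      omega
    obtain ⟨t, rfl⟩ := Nat.exists_eq_add_of_le he'
    obtain ⟨h, hh, hgh⟩ := htop (m + t) g (by rwa [← add_assoc])
    obtain ⟨h', hh', hhh⟩ := hsurj (ell v ^ m * h) (by
      have := hℓm.mul hh
      rwa [add_comm m] at this)
    rw [hspan]
    have : g = ((g - ell v ^ (m + t) * h) + ell v ^ t * (ell v ^ m * h - F (Fin.last n) * h')) +
      F (Fin.last n) * (ell v ^ t * h') := by ring
    rw [this]
    refine Ideal.add_mem _ (Ideal.mem_sup_left (I.add_mem hgh (I.mul_mem_left _ hhh)))
      (Ideal.mem_sup_right (Ideal.mul_mem_right _ _ (Ideal.subset_span rfl)))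
  · intro g hg
    have hdeg : (n + 1) * (m - 1) + 1 = D' + m := by
      have : (n + 1) * (m - 1) = n * (m - 1) + (m - 1) := by ring
      omega
    have hℓg : (ell v * g).IsHomogeneous (D' + m) := by
      have := (ell_hom v).mul hg
      rwa [add_comm 1, hdeg] at this
    obtain ⟨h, hh, hgh⟩ := hsurj _ hℓg
    obtain ⟨c, hc⟩ := hbar.soc (phi v h) (phi_hom v hh)
    have h1 : h - C c * jac' v F ∈ I ⊔ Ideal.span {ell v} := by
      rw [hrestr, map_sub, map_mul, phi_jac']
      have : phi v (C c) = C c := by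
        rw [← algebraMap_eq, AlgHom.commutes, algebraMap_eq]
      rw [this]
      exact hc
    obtain ⟨a, ha, b', hb', hab⟩ := Submodule.mem_sup.1 h1
    obtain ⟨b, rfl⟩ := Ideal.mem_span_singleton.1 hb'
    refine ⟨c * (m : k)⁻¹, ?_⟩
    have h2 : g - C (c * (m : k)⁻¹) * jac F - F (Fin.last n) * b ∈ I := by
      apply hregL
      have e1 : ell v * (g - C (c * (m : k)⁻¹) * jac F - F (Fin.last n) * b) =
          (ell v * g - F (Fin.last n) * h) -
            C (c * (m : k)⁻¹) * (ell v * jac F - C (m : k) * F (Fin.last n) * jac' v F) +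
            F (Fin.last n) * a := by
        have e2 : h = C c * jac' v F + (a + ell v * b) := by rw [hab]; ring
        have e3 : C (c * (m : k)⁻¹) * C (m : k) = (C c : MvPolynomial (Fin (n + 1)) k) := by
          rw [← C_mul, mul_assoc, inv_mul_cancel₀ hm0, mul_one]
        have e4 : C (c * (m : k)⁻¹) * (C (m : k) * F (Fin.last n) * jac' v F) =
            C c * F (Fin.last n) * jac' v F := by
          rw [← e3]; ring
        rw [mul_sub (C (c * (m : k)⁻¹)), e4, e2]
        ring
      rw [e1]
      rw [hmC] at hid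
      exact I.add_mem (I.sub_mem hgh (I.mul_mem_left _ hid)) (I.mul_mem_left _ ha)
    rw [hspan]
    have h3 : g - C (c * (m : k)⁻¹) * jac F = (g - C (c * (m : k)⁻¹) * jac F -
      F (Fin.last n) * b) + F (Fin.last n) * b := by ring
    rw [h3]
    exact Ideal.add_mem _ (Ideal.mem_sup_left h2)
      (Ideal.mem_sup_right (Ideal.mul_mem_right _ _ (Ideal.subset_span rfl)))
  · intro hmem
    rw [hspan] at hmem
    obtain ⟨a, ha, b', hb', hab⟩ := Submodule.mem_sup.1 hmem
    obtain ⟨b, rfl⟩ := Ideal.mem_span_singleton.1 hb'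
    apply hbar.nz
    rw [← phi_jac', ← hrestr]
    have h1 : C (m : k) * jac' v F - ell v * b ∈ I := by
      apply hregF
      rw [hmC] at hid
      have : F (Fin.last n) * (C (m : k) * jac' v F - ell v * b) =
          ell v * a - (ell v * jac F - C (m : k) * F (Fin.last n) * jac' v F) := by
        rw [← hab]; ring
      rw [this]
      exact I.sub_mem (I.mul_mem_left _ ha) hid
    have h2 : jac' v F = C (m : k)⁻¹ * (C (m : k) * jac' v F - ell v * b) +
        ell v * (C (m : k)⁻¹ * b) := by
      have e3 : C (m : k)⁻¹ * C (m : k) = (1 : MvPolynomial (Fin (n + 1)) k) := by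
        rw [← C_mul, inv_mul_cancel₀ hm0, C_1]
      have : C (m : k)⁻¹ * (C (m : k) * jac' v F - ell v * b) +
        ell v * (C (m : k)⁻¹ * b) = C (m : k)⁻¹ * C (m : k) * jac' v F := by ring
      rw [this, e3, one_mul]
    rw [h2]
    exact Ideal.add_mem _ (Ideal.mem_sup_left (I.mul_mem_left _ h1))
      (Ideal.mem_sup_right (Ideal.mul_mem_right _ _ (Ideal.subset_span rfl)))
  · intro i
    refine Fin.lastCases ?_ (fun i => ?_) i
    · intro g hg
      rw [image_last] at hg ⊢
      exact hregF g hg
    · intro g hg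
      rw [image_castSucc] at hg ⊢
      exact hreg1 i g hg

/-- **Complete intersections**: the socle of `S/(F_1, …, F_n)` is spanned by the Jacobian. -/
theorem good [IsAlgClosed k] [CharZero k] {m : ℕ} (hm : 1 ≤ m) :
    ∀ (n : ℕ) (F : Fin n → MvPolynomial (Fin n) k), (∀ j, (F j).IsHomogeneous m) → NonSing F →
      Good m F := by
  intro n
  induction n with
  | zero => intro F _ _; exact good_zero F
  | succ n ih => intro F hF hns; exact good_succ hm ih F hF hns

end

end Pool.Agent.H687.AF
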