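import Mathlib
import Pool.Agent.H687.AF.CI

/-!
# Generic forms and admissible denominators
-/

set_option autoImplicit false

open MvPolynomial

namespace Pool.Agent.H687.AF

/-- Exponent vectors of degree `d` in `n` variables. -/
abbrev Mon (n d : ℕ) : Type := ↥(Finset.finsuppAntidiag (Finset.univ : Finset (Fin n)) d)

lemma Mon.sum_eq {n d : ℕ} (s : Mon n d) : ∑ i, s.1 i = d :=
  (Finset.mem_finsuppAntidiag.1 s.2).1

lemma Mon.degree_eq {n d : ℕ} (s : Mon n d) : s.1.degree = d := by
  rw [Finsupp.degree_eq_sum]; exact s.sum_eq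

/-- Constructor for exponent vectors. -/
def Mon.mk' {n d : ℕ} (s : Fin n →₀ ℕ) (hs : s.degree = d) : Mon n d :=
  ⟨s, Finset.mem_finsuppAntidiag.2 ⟨by rw [← hs, Finsupp.degree_eq_sum], Finset.subset_univ _⟩⟩

section ring

variable {A : Type*} [CommRing A] {n d : ℕ}

/-- The form with given coefficients. -/
noncomputable def form (c : Mon n d → A) : MvPolynomial (Fin n) A :=
  ∑ s : Mon n d, monomial s.1 (c s)

/-- The partial derivatives. -/
noncomputable def grad (c : Mon n d → A) (j : Fin n) : MvPolynomial (Fin n) A :=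
  pderiv j (form c)

/-- The gradient ideal. -/
noncomputable def J (c : Mon n d → A) : Ideal (MvPolynomial (Fin n) A) :=
  Ideal.span (Set.range (grad c))

/-- The Hessian determinant. -/
noncomputable def Hess (c : Mon n d → A) : MvPolynomial (Fin n) A :=
  jac (grad c)

lemma form_hom (c : Mon n d → A) : (form c).IsHomogeneous d :=
  IsHomogeneous.sum _ _ _ fun s _ => isHomogeneous_monomial _ s.degree_eq

lemma grad_hom (c : Mon n d → A) (j : Fin n) : (grad c j).IsHomogeneous (d - 1) :=
  (form_hom c).pderiv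

lemma Hess_hom (c : Mon n d → A) : (Hess c).IsHomogeneous (n * (d - 2)) := by
  have := jac_hom (grad_hom c)
  have h : d - 1 - 1 = d - 2 := by omega
  rwa [h] at this

lemma J_hom (c : Mon n d → A) : IsHom (J c) := isHom_span_range (grad_hom c)

lemma coeff_form (c : Mon n d → A) (s : Mon n d) : coeff s.1 (form c) = c s := by
  classical
  rw [form, coeff_sum]
  simp only [coeff_monomial]
  rw [Finset.sum_eq_single s]
  · rw [if_pos rfl]
  · intro b _ hb
    rw [if_neg]
    intro h
    exact hb (Subtype.ext h)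
  · intro h
    exact absurd (Finset.mem_univ s) h

lemma form_coeff {g : MvPolynomial (Fin n) A} (hg : g.IsHomogeneous d) :
    form (fun s : Mon n d => coeff s.1 g) = g := by
  ext s
  by_cases hs : s.degree = d
  · exact coeff_form (fun s : Mon n d => coeff s.1 g) (Mon.mk' s hs)
  · rw [hg.coeff_eq_zero hs, (form_hom _).coeff_eq_zero hs]

variable {B : Type*} [CommRing B] (f : A →+* B)

lemma map_form (c : Mon n d → A) : map f (form c) = form fun s => f (c s) := by
  simp [form, map_monomial]

lemma map_grad (c : Mon n d → A) (j : Fin n) :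
    map f (grad c j) = grad (fun s => f (c s)) j := by
  rw [grad, grad, ← map_form, pderiv_map]

lemma map_jac (F : Fin n → MvPolynomial (Fin n) A) :
    map f (jac F) = jac fun j => map f (F j) := by
  rw [jac, jac, RingHom.map_det]
  congr 1
  ext1 i j
  simp only [RingHom.mapMatrix_apply, Matrix.map_apply, Matrix.of_apply]
  rw [pderiv_map]

lemma map_Hess (c : Mon n d → A) : map f (Hess c) = Hess fun s => f (c s) := by
  rw [Hess, map_jac, Hess]
  congr 1
  funext j
  rw [map_grad]

lemma map_mem_J {c : Mon n d → A} {g : MvPolynomial (Fin n) A} (hg : g ∈ J c) :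
    map f g ∈ J fun s => f (c s) := by
  have h1 := Ideal.mem_map_of_mem (map f) hg
  rw [J, Ideal.map_span, ← Set.range_comp] at h1
  have h2 : (map f ∘ grad c : Fin n → MvPolynomial (Fin n) B) = grad fun s => f (c s) := by
    funext j
    exact map_grad f c j
  have h3 : (⇑(map f) ∘ grad c : Fin n → MvPolynomial (Fin n) B) = grad fun s => f (c s) := h2
  rw [h3] at h1
  exact h1

end ring

section generic

variable {k : Type*} [Field k] {n d : ℕ}

/-- The coefficients of the generic form. -/
noncomputable def gen (k : Type*) [Field k] (n d : ℕ) : Mon n d → MvPolynomial (Mon n d) k := X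

lemma eval_gen (c : Mon n d → k) : (fun s => eval c (gen k n d s)) = c := by
  funext s
  simp [gen]

lemma homogeneousSubmodule_fg' (A : Type*) [CommRing A] (n e : ℕ) :
    (homogeneousSubmodule (Fin n) A e).FG := by
  have h : homogeneousSubmodule (Fin n) A e =
      Submodule.span A (Set.range fun s : Mon n e => (monomial s.1 (1 : A))) := by
    apply le_antisymm
    · intro g hg
      have hg' : g.IsHomogeneous e := hg
      rw [← form_coeff hg']
      refine Submodule.sum_mem _ fun s _ => ?_
      have : (monomial s.1 (coeff s.1 g) : MvPolynomial (Fin n) A) =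
          (coeff s.1 g) • monomial s.1 1 := by
        rw [smul_monomial, smul_eq_mul, mul_one]
      rw [this]
      exact Submodule.smul_mem _ _ (Submodule.subset_span ⟨s, rfl⟩)
    · refine Submodule.span_le.2 ?_
      rintro _ ⟨s, rfl⟩
      exact isHomogeneous_monomial _ s.degree_eq
  rw [h]
  exact Submodule.fg_span (Set.finite_range _)

/-- Nakayama: spreading out generation by `w`. -/
lemma spread {c : Mon n d → k} {e : ℕ} {w : MvPolynomial (Fin n) (MvPolynomial (Mon n d) k)}
    (hw : w.IsHomogeneous e)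
    (h : ∀ g : MvPolynomial (Fin n) k, g.IsHomogeneous e → ∃ μ : k,
      g - C μ * map (eval c) w ∈ J c) :
    ∃ r : MvPolynomial (Mon n d) k, eval c r = 1 ∧
      ∀ g : MvPolynomial (Fin n) (MvPolynomial (Mon n d) k), g.IsHomogeneous e →
        ∃ P, C r * g - C P * w ∈ J (gen k n d) := by
  classical
  set N : Submodule (MvPolynomial (Mon n d) k)
      (MvPolynomial (Fin n) (MvPolynomial (Mon n d) k)) :=
    (J (gen k n d)).restrictScalars (MvPolynomial (Mon n d) k) ⊔ Submodule.span _ {w} with hN
  set M := (homogeneousSubmodule (Fin n) (MvPolynomial (Mon n d) k) e).map N.mkQ with hM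
  have hfg : M.FG := (homogeneousSubmodule_fg' _ n e).map _
  set 𝔪 : Ideal (MvPolynomial (Mon n d) k) := RingHom.ker (eval c) with h𝔪
  have hle : M ≤ 𝔪 • M := by
    rintro _ ⟨g, hg, rfl⟩
    have hg' : g.IsHomogeneous e := hg
    obtain ⟨μ, hμ⟩ := h (map (eval c) g) (hg'.map _)
    obtain ⟨a, ha⟩ := (Ideal.mem_span_range_iff_exists_fun).1 hμ
    set y : MvPolynomial (Fin n) (MvPolynomial (Mon n d) k) := C (C μ) * w + ∑ j, map C (a j) * grad (gen k n d) j with hy
    have hmapC : ∀ p : MvPolynomial (Fin n) k,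
        map (eval c) (map (C : k →+* MvPolynomial (Mon n d) k) p) = p := by
      intro p
      rw [map_map]
      have : (eval c).comp (C : k →+* MvPolynomial (Mon n d) k) = RingHom.id k := by
        ext x; simp
      rw [this, map_id]
    have hker : map (eval c) (g - y) = 0 := by
      rw [map_sub, hy, map_add, map_mul, map_sum]
      simp only [map_mul, hmapC, map_grad, eval_gen, map_C, eval_C]
      rw [← sub_sub, ← ha, sub_self]
    -- the degree e component of g - y has coefficients in 𝔪
    set z := homogeneousComponent e (g - y) with hz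
    have hzhom : z.IsHomogeneous e := comp_isHom _ _
    have hzc : ∀ s, coeff s z ∈ 𝔪 := by
      intro s
      rw [hz, coeff_homogeneousComponent]
      split_ifs with hs
      · rw [h𝔪, RingHom.mem_ker, ← coeff_map, hker, coeff_zero]
      · exact 𝔪.zero_mem
    have hgz : g - z ∈ N := by
      have h1 : g - z = homogeneousComponent e y := by
        rw [hz, map_sub, comp_self hg']; ring
      rw [h1, hy, map_add]
      refine N.add_mem ?_ ?_
      · have h2 : homogeneousComponent e (C (C μ) * w) = C (C μ) * w := by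
          have h3 := (isHomogeneous_C (Fin n) (C μ : MvPolynomial (Mon n d) k)).mul hw
          rw [zero_add] at h3
          exact comp_self h3
        rw [h2, ← smul_eq_C_mul]
        exact Submodule.mem_sup_right (Submodule.smul_mem _ _ (Submodule.mem_span_singleton_self w))
      · apply Submodule.mem_sup_left
        show homogeneousComponent e (∑ j, map C (a j) * grad (gen k n d) j) ∈ J (gen k n d)
        apply J_hom
        refine Ideal.sum_mem _ fun j _ => Ideal.mul_mem_left _ _ (Ideal.subset_span ⟨j, rfl⟩)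
    have h4 : N.mkQ g = N.mkQ z := by
      rw [← sub_eq_zero, ← map_sub]
      exact (Submodule.Quotient.mk_eq_zero N).2 hgz
    rw [h4, ← form_coeff hzhom, form, map_sum]
    refine Submodule.sum_mem _ fun s _ => ?_
    have : (monomial s.1 (coeff s.1 z) : MvPolynomial (Fin n) (MvPolynomial (Mon n d) k)) = (coeff s.1 z) • monomial s.1 1 := by
      rw [smul_monomial, smul_eq_mul, mul_one]
    rw [this, map_smul]
    refine Submodule.smul_mem_smul (hzc _) ⟨monomial s.1 1, ?_, rfl⟩
    exact isHomogeneous_monomial _ s.degree_eq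
  obtain ⟨r, hr1, hr2⟩ :=
    Submodule.exists_sub_one_mem_and_smul_eq_zero_of_fg_of_le_smul 𝔪 M hfg hle
  refine ⟨r, ?_, fun g hg => ?_⟩
  · rw [h𝔪, RingHom.mem_ker, map_sub, map_one, sub_eq_zero] at hr1
    exact hr1
  · have h1 := hr2 (N.mkQ g) ⟨g, hg, rfl⟩
    rw [← map_smul] at h1
    have h2 : r • g ∈ N := (Submodule.Quotient.mk_eq_zero N).1 h1
    obtain ⟨x, hx, y, hy, hxy⟩ := Submodule.mem_sup.1 h2
    obtain ⟨P, rfl⟩ := Submodule.mem_span_singleton.1 hy
    refine ⟨P, ?_⟩
    rw [← smul_eq_C_mul, ← smul_eq_C_mul, ← hxy, add_sub_cancel_right]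
    exact hx

/-- Admissible denominators. -/
def Adm (q : MvPolynomial (Mon n d) k) : Prop :=
  ∀ i : Mon n (n * (d - 2)), ∃ P : MvPolynomial (Mon n d) k,
    C q * monomial i.1 1 - C P * Hess (gen k n d) ∈ J (gen k n d)

lemma map_eval_mem {p : MvPolynomial (Fin n) (MvPolynomial (Mon n d) k)}
    (hp : p ∈ J (gen k n d)) (c : Mon n d → k) : map (eval c) p ∈ J c := by
  have := map_mem_J (eval c) hp
  rwa [eval_gen] at this

lemma map_Hess_gen (c : Mon n d → k) : map (eval c) (Hess (gen k n d)) = Hess c := by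
  rw [map_Hess, eval_gen]

lemma spec {q P : MvPolynomial (Mon n d) k} {i : Mon n (n * (d - 2))}
    (h : C q * monomial i.1 1 - C P * Hess (gen k n d) ∈ J (gen k n d)) (c : Mon n d → k) :
    C (eval c q) * monomial i.1 1 - C (eval c P) * Hess c ∈ J c := by
  have := map_eval_mem h c
  rwa [map_sub, map_mul, map_mul, map_C, map_C, map_monomial, map_one, map_Hess_gen] at this

lemma good_grad [IsAlgClosed k] [CharZero k] (hd : 2 ≤ d) {c : Mon n d → k}
    (hc : NonSing (grad c)) : Good (d - 1) (grad c) :=
  good (by omega) n _ (grad_hom c) hc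

lemma exists_mu [IsAlgClosed k] [CharZero k] (hd : 2 ≤ d) {c : Mon n d → k}
    (hc : NonSing (grad c)) {g : MvPolynomial (Fin n) k} (hg : g.IsHomogeneous (n * (d - 2))) :
    ∃ x : k, g - C x * Hess c ∈ J c := by
  have h : d - 1 - 1 = d - 2 := by omega
  have := (good_grad hd hc).soc
  rw [h] at this
  exact this g hg

lemma Hess_not_mem [IsAlgClosed k] [CharZero k] (hd : 2 ≤ d) {c : Mon n d → k}
    (hc : NonSing (grad c)) : Hess c ∉ J c :=
  (good_grad hd hc).nz

lemma adm_of_nonsing [IsAlgClosed k] [CharZero k] (hd : 2 ≤ d) {c : Mon n d → k}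
    (hc : NonSing (grad c)) : ∃ q : MvPolynomial (Mon n d) k, Adm q ∧ eval c q = 1 := by
  obtain ⟨r, hr, h⟩ := spread (c := c) (e := n * (d - 2)) (w := Hess (gen k n d)) (Hess_hom _)
    (fun g hg => by rw [map_Hess_gen]; exact exists_mu hd hc hg)
  exact ⟨r, fun i => h _ (isHomogeneous_monomial _ i.degree_eq), hr⟩

lemma eval_J {c : Mon n d → k} {a : Fin n → k} (ha : ∀ j, eval a (grad c j) = 0)
    {g : MvPolynomial (Fin n) k} (hg : g ∈ J c) : eval a g = 0 := by
  have hle : J c ≤ RingHom.ker (eval a) := by
    refine Ideal.span_le.2 ?_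
    rintro _ ⟨j, rfl⟩
    exact ha j
  exact hle hg

lemma eval_Hess {c : Mon n d → k} {a : Fin n → k} (ha0 : a ≠ 0)
    (ha : ∀ j, eval a (grad c j) = 0) : eval a (Hess c) = 0 := by
  rw [Hess, jac, RingHom.map_det]
  apply Matrix.exists_vecMul_eq_zero_iff.1
  refine ⟨a, ha0, ?_⟩
  ext j
  rw [Matrix.vecMul]
  simp only [dotProduct, RingHom.mapMatrix_apply, Matrix.map_apply, Matrix.of_apply]
  have h := (grad_hom c j).sum_X_mul_pderiv
  have h2 := congrArg (eval a) h
  rw [map_sum] at h2
  simp only [map_mul, eval_X, map_nsmul, ha j, smul_zero] at h2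
  exact h2

lemma adm_sing {q : MvPolynomial (Mon n d) k}
    (hq : Adm q) {c : Mon n d → k} (hc : ¬ NonSing (grad c)) : eval c q = 0 := by
  rw [NonSing] at hc
  push Not at hc
  obtain ⟨a, ha, ha0⟩ := hc
  obtain ⟨j, hj⟩ := Function.ne_iff.1 ha0
  obtain ⟨P, hP⟩ := hq (Mon.mk' (Finsupp.single j (n * (d - 2))) (Finsupp.degree_single _ _))
  have h1 := eval_J ha (spec hP c)
  rw [map_sub, map_mul, map_mul, eval_C, eval_C, eval_Hess ha0 ha, mul_zero, sub_zero] at h1
  refine (mul_eq_zero.1 h1).resolve_right ?_
  show eval a (monomial (Finsupp.single j (n * (d - 2))) 1) ≠ 0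
  rw [eval_monomial, one_mul, Finsupp.prod_single_index (by exact pow_zero _)]
  exact pow_ne_zero _ hj

/-- `x` is the value `μ_i(f)` of the coordinate function at the form with coefficients `c`. -/
def IsMu (c : Mon n d → k) (i : Mon n (n * (d - 2))) (x : k) : Prop :=
  monomial i.1 1 - C x * Hess c ∈ J c

lemma IsMu.unique [IsAlgClosed k] [CharZero k] (hd : 2 ≤ d) {c : Mon n d → k}
    (hc : NonSing (grad c)) {i : Mon n (n * (d - 2))} {x : k} (hx : IsMu c i x)
    {a b : k} (h : C a * monomial i.1 1 - C b * Hess c ∈ J c) : a * x = b := by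
  by_contra hne
  apply Hess_not_mem hd hc
  have h1 : (C (a * x - b) : MvPolynomial (Fin n) k) * Hess c ∈ J c := by
    have h2 := (J c).sub_mem h ((J c).mul_mem_left (C a) hx)
    have h3 : (C a * monomial i.1 1 - C b * Hess c) - C a * (monomial i.1 1 - C x * Hess c) =
        (C (a * x - b) : MvPolynomial (Fin n) k) * Hess c := by
      rw [C_sub, C_mul]; ring
    rwa [h3] at h2
  have h4 : (C (a * x - b)⁻¹ : MvPolynomial (Fin n) k) * (C (a * x - b) * Hess c) = Hess c := by
    rw [← mul_assoc, ← C_mul, inv_mul_cancel₀ (sub_ne_zero.2 hne), C_1, one_mul]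
  rw [← h4]
  exact (J c).mul_mem_left _ h1

/-- A discriminant: an irreducible equation of the set of singular forms. -/
def IsDiscriminant (Δ : MvPolynomial (Mon n d) k) : Prop :=
  Irreducible Δ ∧ ∀ c : Mon n d → k, eval c Δ = 0 ↔ ¬ NonSing (grad c)

section denominators

variable [IsAlgClosed k] [CharZero k]

omit [CharZero k] in
lemma dvd_of_eval {g Δ : MvPolynomial (Mon n d) k} (hg : Prime g)
    (h : ∀ c, eval c g = 0 → eval c Δ = 0) : g ∣ Δ := by
  have h1 : Δ ∈ (Ideal.span {g}).radical := by
    rw [← vanishingIdeal_zeroLocus_eq_radical (K := k), mem_vanishingIdeal_iff]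
    intro x hx
    have h2 : eval x g = 0 := by
      simpa [coe_aeval_eq_eval] using hx g (Ideal.mem_span_singleton_self g)
    simpa [coe_aeval_eq_eval] using h x h2
  rw [Ideal.IsPrime.radical ((Ideal.span_singleton_prime hg.ne_zero).2 hg)] at h1
  exact Ideal.mem_span_singleton.1 h1

omit [CharZero k] in
lemma eq_of_nonsing {Δ p q : MvPolynomial (Mon n d) k} (hΔ : IsDiscriminant Δ)
    (h : ∀ c, NonSing (grad c) → eval c p = eval c q) : p = q := by
  have h1 : Δ * (p - q) = 0 := by
    apply MvPolynomial.funext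
    intro c
    rw [map_mul, map_sub, map_zero]
    by_cases hc : NonSing (grad c)
    · rw [h c hc, sub_self, mul_zero]
    · rw [(hΔ.2 c).2 hc, zero_mul]
  exact sub_eq_zero.1 ((mul_eq_zero.1 h1).resolve_left hΔ.1.ne_zero)

/-- `Δ μ_i` is a polynomial. -/
lemma delta_mu (hd : 2 ≤ d) {Δ : MvPolynomial (Mon n d) k} (hΔ : IsDiscriminant Δ)
    {q₀ : MvPolynomial (Mon n d) k} (hq₀ : Adm q₀) (hsq : ¬ Δ ^ 2 ∣ q₀)
    (i : Mon n (n * (d - 2))) :
    ∃ Q : MvPolynomial (Mon n d) k, ∀ c, NonSing (grad c) → ∀ x, IsMu c i x →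
      eval c Δ * x = eval c Q := by
  have hq0 : q₀ ≠ 0 := by
    rintro rfl
    exact hsq (dvd_zero _)
  obtain ⟨P₀, hP₀⟩ := hq₀ i
  obtain ⟨A, B, g, hAB, hgA, hgB⟩ :
      ∃ A B g : MvPolynomial (Mon n d) k, IsRelPrime A B ∧ g * A = P₀ ∧ g * B = q₀ := by
    obtain ⟨A, B, g, h1, h2, h3⟩ :=
      UniqueFactorizationMonoid.exists_reduced_factors' P₀ q₀ hq0
    exact ⟨A, B, g, h1, h2, h3⟩
  have hg0 : g ≠ 0 := by
    rintro rfl
    exact hq0 (by rw [← hgB, zero_mul])
  have hB0 : B ≠ 0 := by
    rintro rfl
    exact hq0 (by rw [← hgB, mul_zero])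
  -- all admissible pairs are proportional
  have key : ∀ q P : MvPolynomial (Mon n d) k,
      C q * monomial i.1 1 - C P * Hess (gen k n d) ∈ J (gen k n d) → q * A = B * P := by
    intro q P hP
    have h1 : q * P₀ = q₀ * P := by
      apply eq_of_nonsing hΔ
      intro c hc
      obtain ⟨x, hx⟩ := exists_mu hd hc (isHomogeneous_monomial (1 : k) i.degree_eq)
      have h2 := IsMu.unique hd hc hx (spec hP c)
      have h3 := IsMu.unique hd hc hx (spec hP₀ c)
      rw [map_mul, map_mul, ← h2, ← h3]
      ring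
    apply mul_left_cancel₀ hg0
    rw [← hgA, ← hgB] at h1
    linear_combination h1
  have hBdvd : ∀ q, Adm q → B ∣ q := by
    intro q hq
    obtain ⟨P, hP⟩ := hq i
    have h1 := key q P hP
    exact hAB.symm.dvd_of_dvd_mul_right ⟨P, h1⟩
  -- prime factors of B
  have hprime : ∀ g, Prime g → g ∣ B → Δ ∣ g := by
    intro g hg hgB
    have h1 : g ∣ Δ := by
      apply dvd_of_eval hg
      intro c hc
      rw [hΔ.2]
      intro hns
      obtain ⟨q, hq, hqc⟩ := adm_of_nonsing hd hns
      obtain ⟨t, ht⟩ := hgB.trans (hBdvd q hq)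
      rw [ht, map_mul, hc, zero_mul] at hqc
      exact zero_ne_one hqc
    exact (hg.irreducible.dvd_comm hΔ.1).1 h1
  have hBΔ : B ∣ Δ := by
    by_cases hu : IsUnit B
    · exact hu.dvd
    · obtain ⟨g₁, hg₁, hg₁B⟩ := WfDvdMonoid.exists_irreducible_factor hu hB0
      obtain ⟨B', hB'⟩ := (hprime g₁ hg₁.prime hg₁B).trans hg₁B
      by_cases hu' : IsUnit B'
      · rw [hB']
        obtain ⟨u, hu'⟩ := hu'
        exact ⟨(u⁻¹ : (MvPolynomial (Mon n d) k)ˣ), by rw [← hu', mul_assoc, Units.mul_inv, mul_one]⟩
      · exfalso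
        have hB'0 : B' ≠ 0 := by
          rintro rfl
          exact hB0 (by rw [hB', mul_zero])
        obtain ⟨g₂, hg₂, hg₂B⟩ := WfDvdMonoid.exists_irreducible_factor hu' hB'0
        obtain ⟨B'', hB''⟩ := (hprime g₂ hg₂.prime (hg₂B.trans ⟨Δ, by rw [hB', mul_comm]⟩)).trans hg₂B
        apply hsq
        refine dvd_trans ⟨B'', ?_⟩ (hBdvd q₀ hq₀)
        rw [hB', hB'']; ring
  obtain ⟨E, hE⟩ := hBΔ
  refine ⟨E * A, fun c hc x hx => ?_⟩
  obtain ⟨q, hq, hqc⟩ := adm_of_nonsing hd hc
  obtain ⟨P, hP⟩ := hq i
  have h1 := IsMu.unique hd hc hx (spec hP c)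
  have h2 := congrArg (eval c) (key q P hP)
  rw [map_mul, map_mul, hqc, one_mul] at h2
  rw [hqc, one_mul] at h1
  rw [hE, map_mul, map_mul, h2, h1]
  ring

/-- Not all `μ_i` are polynomials. -/
lemma exists_not_poly (hn : 1 ≤ n) (hd : 2 ≤ d) {c : Mon n d → k} (hc : NonSing (grad c)) :
    ∃ i : Mon n (n * (d - 2)), ¬ ∃ Q : MvPolynomial (Mon n d) k,
      ∀ c, NonSing (grad c) → ∀ x, IsMu c i x → x = eval c Q := by
  by_contra hcon
  push Not at hcon
  have hzero : ∀ i : Mon n (n * (d - 2)), monomial i.1 1 ∈ J c := by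
    intro i
    obtain ⟨Q, hQ⟩ := hcon i
    obtain ⟨x, hx⟩ := exists_mu hd hc (isHomogeneous_monomial (1 : k) i.degree_eq)
    have hxQ := hQ c hc x hx
    -- the homothety
    have hscale : ∀ s : k, s ≠ 0 → s ^ n * eval (fun u => s * c u) Q = x := by
      intro s hs
      have hform : form (fun u => s * c u) = C s * form c := by
        rw [form, form, Finset.mul_sum]
        refine Finset.sum_congr rfl fun u _ => ?_
        rw [C_mul_monomial]
      have hgrad : ∀ j, grad (fun u => s * c u) j = C s * grad c j := by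
        intro j
        rw [grad, grad, hform, pderiv_C_mul]
      have hns : NonSing (grad fun u => s * c u) := by
        intro a ha
        apply hc a
        intro j
        have := ha j
        rw [hgrad, map_mul, eval_C] at this
        exact (mul_eq_zero.1 this).resolve_left hs
      have hHess : Hess (fun u => s * c u) = C (s ^ n) * Hess c := by
        rw [Hess, Hess, jac, jac]
        have : (Matrix.of fun i j => pderiv i (grad (fun u => s * c u) j)) =
            (C s : MvPolynomial (Fin n) k) • Matrix.of fun i j => pderiv i (grad c j) := by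
          ext1 i j
          simp only [Matrix.of_apply, Matrix.smul_apply, smul_eq_mul]
          rw [hgrad, pderiv_C_mul]
        rw [this, Matrix.det_smul, Fintype.card_fin, C_pow]
      have hJ : J (fun u => s * c u) = J c := by
        apply le_antisymm
        · refine Ideal.span_le.2 ?_
          rintro _ ⟨j, rfl⟩
          rw [hgrad]
          exact Ideal.mul_mem_left _ _ (Ideal.subset_span ⟨j, rfl⟩)
        · refine Ideal.span_le.2 ?_
          rintro _ ⟨j, rfl⟩
          have : grad c j = C s⁻¹ * grad (fun u => s * c u) j := by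
            rw [hgrad, ← mul_assoc, ← C_mul, inv_mul_cancel₀ hs, C_1, one_mul]
          rw [SetLike.mem_coe, this]
          exact Ideal.mul_mem_left _ _ (Ideal.subset_span ⟨j, rfl⟩)
      have hsn : s ^ n ≠ 0 := pow_ne_zero _ hs
      have hmu : IsMu (fun u => s * c u) i ((s ^ n)⁻¹ * x) := by
        rw [IsMu, hHess, hJ, ← mul_assoc, ← C_mul]
        have : (s ^ n)⁻¹ * x * s ^ n = x := by
          field_simp
        rw [this]
        exact hx
      have := hQ _ hns _ hmu
      rw [← this, ← mul_assoc, mul_inv_cancel₀ hsn, one_mul]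
    have hx0 : x = 0 := by
      let p : Polynomial k := Polynomial.X ^ n *
        (aeval (fun u => Polynomial.X * Polynomial.C (c u)) Q) - Polynomial.C x
      have hp : Polynomial.X * p = 0 := by
        apply Polynomial.funext
        intro s
        rw [Polynomial.eval_mul, Polynomial.eval_X, Polynomial.eval_zero]
        by_cases hs : s = 0
        · rw [hs, zero_mul]
        · have h1 : (aeval (fun u => Polynomial.X * Polynomial.C (c u)) Q : Polynomial k).eval s =
              eval (fun u => s * c u) Q := by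
            have h2 : ((Polynomial.aeval s : Polynomial k →ₐ[k] k).comp
                (aeval fun u => Polynomial.X * Polynomial.C (c u))) =
                aeval (fun u => s * c u) := by
              apply MvPolynomial.algHom_ext
              intro u
              simp only [AlgHom.comp_apply, aeval_X, map_mul, Polynomial.aeval_X,
                Polynomial.aeval_C]
              rfl
            exact DFunLike.congr_fun h2 Q
          rw [Polynomial.eval_sub, Polynomial.eval_mul, Polynomial.eval_pow, Polynomial.eval_X,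
            Polynomial.eval_C, h1, hscale s hs, sub_self, mul_zero]
      have hp0 : p = 0 := (mul_eq_zero.1 hp).resolve_left Polynomial.X_ne_zero
      have h1 := congrArg (Polynomial.eval 0) hp0
      simp only [p, Polynomial.eval_sub, Polynomial.eval_mul, Polynomial.eval_pow,
        Polynomial.eval_X, Polynomial.eval_C, Polynomial.eval_zero] at h1
      rw [zero_pow (by omega), zero_mul, zero_sub, neg_eq_zero] at h1
      exact h1
    rw [hx0, C_0, zero_mul, sub_zero] at hx
    exact hx
  apply Hess_not_mem hd hc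
  rw [← form_coeff (Hess_hom c), form]
  refine Ideal.sum_mem _ fun i _ => ?_
  have : (monomial i.1 (coeff i.1 (Hess c)) : MvPolynomial (Fin n) k) =
      C (coeff i.1 (Hess c)) * monomial i.1 1 := by
    rw [C_mul_monomial, mul_one]
  rw [this]
  exact Ideal.mul_mem_left _ _ (hzero i)

end denominators

end generic

end Pool.Agent.H687.AF
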