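import Mathlib

/-!
# The roots of `x^m - x`: interpolation facts
-/

set_option autoImplicit false
set_option linter.unusedSectionVars false
set_option linter.unusedVariables false

namespace Pool.Agent.H687.AF

open Polynomial

section

variable {k : Type*} [Field k] [DecidableEq k]

/-- The data of the roots of `x^m = x`. -/
structure RootSet (m : ℕ) (Ξ : Finset k) : Prop where
  two_le : 2 ≤ m
  nodal : Lagrange.nodal Ξ (id : k → k) = (X : k[X]) ^ m - X

lemma exists_rootSet [IsAlgClosed k] [CharZero k] {m : ℕ} (hm : 2 ≤ m) :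
    ∃ Ξ : Finset k, RootSet m Ξ := by
  set P : k[X] := X ^ m - X with hP
  have hmon : P.Monic := by
    apply monic_X_pow_sub
    rw [degree_X]
    exact_mod_cast hm
  have hsep : P.Separable := by
    obtain ⟨e, rfl⟩ := Nat.exists_eq_add_of_le hm
    rw [separable_def]
    have hne : (1 - ((2 + e : ℕ) : k)) ≠ 0 := by
      rw [sub_ne_zero]
      have : ((1 : ℕ) : k) ≠ ((2 + e : ℕ) : k) := by
        rw [Ne, Nat.cast_inj]; omega
      simpa using this
    have hder : derivative P = C ((2 + e : ℕ) : k) * X ^ (e + 1) - 1 := by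
      rw [hP, derivative_sub, derivative_X_pow, derivative_X]
      have : 2 + e - 1 = e + 1 := by omega
      rw [this]
    set u : k := ((2 + e : ℕ) : k) with hu
    refine ⟨C (u * u * (1 - u)⁻¹) * X ^ e, -(C (u * (1 - u)⁻¹) * X ^ (e + 1)) - 1, ?_⟩
    rw [hder, hP]
    have h1 : (C (1 - u)⁻¹ : k[X]) * (1 - C u) = 1 := by
      rw [← C_1, ← C_sub, ← C_mul, C_1, inv_mul_cancel₀ hne, C_1]
    simp only [C_mul]
    linear_combination (C u * X ^ (e + 1)) * h1
  refine ⟨P.roots.toFinset, hm, ?_⟩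
  have h1 := (IsAlgClosed.splits P).eq_prod_roots_of_monic hmon
  rw [← hP]
  conv_rhs => rw [h1]
  rw [Lagrange.nodal_eq]
  simp only [id]
  rw [Finset.prod_eq_multiset_prod, Multiset.toFinset_val,
    Multiset.dedup_eq_self.2 (nodup_roots hsep)]

variable {m : ℕ} {Ξ : Finset k} (h : RootSet m Ξ)

/-- The interpolation weights. -/
def wt (Ξ : Finset k) (ξ : k) : k := Lagrange.nodalWeight Ξ id ξ

include h

lemma RootSet.card : Ξ.card = m := by
  have h1 := Lagrange.natDegree_nodal (s := Ξ) (v := (id : k → k))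
  rw [h.nodal] at h1
  rw [← h1]
  have := h.two_le
  rw [natDegree_sub_eq_left_of_natDegree_lt]
  · exact natDegree_X_pow m
  · rw [natDegree_X, natDegree_X_pow]; omega

lemma RootSet.prod_eq (y : k) : ∏ η ∈ Ξ, (y - η) = y ^ m - y := by
  have h1 := Lagrange.eval_nodal (s := Ξ) (v := (id : k → k)) (x := y)
  rw [h.nodal] at h1
  simpa using h1.symm

lemma RootSet.mem_iff (ξ : k) : ξ ∈ Ξ ↔ ξ ^ m = ξ := by
  rw [← sub_eq_zero (a := ξ ^ m), ← h.prod_eq, Finset.prod_eq_zero_iff]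
  constructor
  · intro hξ
    exact ⟨ξ, hξ, sub_self _⟩
  · rintro ⟨η, hη, h0⟩
    rw [sub_eq_zero] at h0
    rwa [h0]

lemma RootSet.zero_mem : (0 : k) ∈ Ξ := by
  rw [h.mem_iff]
  exact zero_pow (by have := h.two_le; omega)

lemma RootSet.wt_ne_zero {ξ : k} (hξ : ξ ∈ Ξ) : wt Ξ ξ ≠ 0 :=
  Lagrange.nodalWeight_ne_zero (Function.injective_id.injOn) hξ

lemma RootSet.wt_mul {ξ : k} (hξ : ξ ∈ Ξ) : wt Ξ ξ * ((m : k) * ξ ^ (m - 1) - 1) = 1 := by
  have h1 : wt Ξ ξ = (eval (id ξ) (derivative (Lagrange.nodal Ξ id)))⁻¹ :=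
    Lagrange.nodalWeight_eq_eval_derivative_nodal hξ
  rw [h.nodal] at h1
  have h2 : eval (id ξ) (derivative ((X : k[X]) ^ m - X)) = (m : k) * ξ ^ (m - 1) - 1 := by
    rw [derivative_sub, derivative_X_pow, derivative_X]
    simp
  rw [h2] at h1
  have h3 := h.wt_ne_zero hξ
  rw [h1] at h3 ⊢
  exact inv_mul_cancel₀ (fun h0 => h3 (by rw [h0, inv_zero]))

lemma RootSet.sum_wt {s : ℕ} (hs : s < m - 1) : ∑ ξ ∈ Ξ, ξ ^ s * wt Ξ ξ = 0 := by
  have hdeg : ((X : k[X]) ^ s).degree < Ξ.card := by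
    rw [h.card, degree_X_pow]
    exact_mod_cast (by omega : s < m)
  have h1 := Lagrange.coeff_eq_sum (s := Ξ) (v := (id : k → k)) (Function.injective_id.injOn)
    (P := X ^ s) hdeg
  rw [h.card, coeff_X_pow, if_neg (by omega)] at h1
  rw [h1]
  refine Finset.sum_congr rfl fun ξ _ => ?_
  rw [wt, Lagrange.nodalWeight, Finset.prod_inv_distrib, eval_pow, eval_X, div_eq_mul_inv]
  rfl

lemma RootSet.sum_basis (y : k) :
    ∑ ξ ∈ Ξ, wt Ξ ξ * ∏ η ∈ Ξ.erase ξ, (y - η) = 1 := by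
  have h1 := Lagrange.sum_basis (s := Ξ) (v := (id : k → k)) (Function.injective_id.injOn)
    ⟨0, h.zero_mem⟩
  have h2 := congrArg (eval y) h1
  rw [eval_finsetSum, eval_one] at h2
  rw [← h2]
  refine Finset.sum_congr rfl fun ξ _ => ?_
  rw [Lagrange.basis, eval_prod, wt, Lagrange.nodalWeight, ← Finset.prod_mul_distrib]
  refine Finset.prod_congr rfl fun η _ => ?_
  simp [Lagrange.basisDivisor]

/-- homogeneous nodal identity -/
lemma RootSet.prod_hom {x w : k} (hw : w ≠ 0) :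
    ∏ η ∈ Ξ, (x - η * w) = x ^ m - x * w ^ (m - 1) := by
  have h1 : ∀ η ∈ Ξ, x - η * w = w * (x / w - η) := by
    intro η _
    field_simp
  rw [Finset.prod_congr rfl h1, Finset.prod_mul_distrib, Finset.prod_const, h.card, h.prod_eq]
  have h2 : w ^ m = w * w ^ (m - 1) := by
    rw [← pow_succ']
    congr 1
    have := h.two_le
    omega
  rw [div_pow, mul_sub, mul_div_cancel₀ _ (pow_ne_zero _ hw), h2]
  field_simp

lemma RootSet.sum_hom {x w : k} (hw : w ≠ 0) :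
    ∑ ξ ∈ Ξ, wt Ξ ξ * ∏ η ∈ Ξ.erase ξ, (x - η * w) = w ^ (m - 1) := by
  have h1 : ∀ ξ ∈ Ξ, wt Ξ ξ * ∏ η ∈ Ξ.erase ξ, (x - η * w) =
      w ^ (m - 1) * (wt Ξ ξ * ∏ η ∈ Ξ.erase ξ, (x / w - η)) := by
    intro ξ hξ
    have h2 : ∀ η ∈ Ξ.erase ξ, x - η * w = w * (x / w - η) := by
      intro η _
      field_simp
    rw [Finset.prod_congr rfl h2, Finset.prod_mul_distrib, Finset.prod_const,
      Finset.card_erase_of_mem hξ, h.card]
    ring
  rw [Finset.sum_congr rfl h1, ← Finset.mul_sum, h.sum_basis, mul_one]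

lemma RootSet.basis_self {ξ : k} (hξ : ξ ∈ Ξ) :
    wt Ξ ξ * ∏ η ∈ Ξ.erase ξ, (ξ - η) = 1 := by
  rw [wt, Lagrange.nodalWeight, ← Finset.prod_mul_distrib]
  refine Finset.prod_eq_one fun η hη => ?_
  rw [id, id]
  exact inv_mul_cancel₀ (sub_ne_zero.2 (Finset.ne_of_mem_erase hη).symm)

lemma RootSet.basis_ne {ξ ζ : k} (hζ : ζ ∈ Ξ) (hne : ζ ≠ ξ) :
    wt Ξ ξ * ∏ η ∈ Ξ.erase ξ, (ζ - η) = 0 := by
  rw [Finset.prod_eq_zero (Finset.mem_erase.2 ⟨hne, hζ⟩) (sub_self _), mul_zero]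

end

end Pool.Agent.H687.AF
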