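import Mathlib
import Pool.Agent.H687.AF.Uni
import Pool.Agent.H687.AF.Generic

/-!
# The points of the grid and interpolation by forms
-/

set_option autoImplicit false
set_option linter.unusedSectionVars false
set_option linter.unusedVariables false

open MvPolynomial

namespace Pool.Agent.H687.AF

section

variable {k : Type*} [Field k] [DecidableEq k] {m : ℕ} {Ξ : Finset k} {n : ℕ}

/-- The grid. -/
def grid (Ξ : Finset k) (n : ℕ) : Finset (Fin n → k) := Fintype.piFinset fun _ => Ξ

/-- The point of projective space attached to a grid point. -/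
def pt (a : Fin n → k) : Fin (n + 1) → k := Fin.lastCases 1 a

@[simp] lemma pt_castSucc (a : Fin n → k) (j : Fin n) : pt a j.castSucc = a j := by simp [pt]
@[simp] lemma pt_last (a : Fin n → k) : pt a (Fin.last n) = 1 := by simp [pt]

/-- The homogeneous Lagrange basis in the variables `X_j`, `X_last`. -/
noncomputable def LB (Ξ : Finset k) (j : Fin n) (ξ : k) : MvPolynomial (Fin (n + 1)) k :=
  C (wt Ξ ξ) * ∏ η ∈ Ξ.erase ξ, (X j.castSucc - C η * X (Fin.last n))

/-- The product basis. -/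
noncomputable def EE (Ξ : Finset k) (a : Fin n → k) : MvPolynomial (Fin (n + 1)) k :=
  ∏ j, LB Ξ j (a j)

lemma eval_LB (j : Fin n) (ξ : k) (p : Fin (n + 1) → k) :
    eval p (LB Ξ j ξ) = wt Ξ ξ * ∏ η ∈ Ξ.erase ξ, (p j.castSucc - η * p (Fin.last n)) := by
  simp [LB, map_prod]

/-- Equality of polynomials can be tested off the hyperplane at infinity. -/
lemma eq_of_eval_last [Infinite k] {f g : MvPolynomial (Fin (n + 1)) k}
    (h : ∀ p : Fin (n + 1) → k, p (Fin.last n) ≠ 0 → eval p f = eval p g) : f = g := by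
  have h1 : X (Fin.last n) * (f - g) = 0 := by
    apply MvPolynomial.funext
    intro p
    rw [map_mul, map_sub, eval_X, map_zero]
    by_cases hp : p (Fin.last n) = 0
    · rw [hp, zero_mul]
    · rw [h p hp, sub_self, mul_zero]
  exact sub_eq_zero.1 ((mul_eq_zero.1 h1).resolve_left (X_ne_zero _))

variable (h : RootSet m Ξ)
include h

lemma LB_mul [Infinite k] (j : Fin n) {ξ : k} (hξ : ξ ∈ Ξ) :
    (X j.castSucc - C ξ * X (Fin.last n)) * LB Ξ j ξ =
      C (wt Ξ ξ) * (X j.castSucc ^ m - X j.castSucc * X (Fin.last n) ^ (m - 1)) := by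
  apply eq_of_eval_last
  intro p hp
  rw [map_mul, eval_LB]
  simp only [map_mul, map_sub, map_pow, eval_X, eval_C]
  rw [← h.prod_hom hp, ← Finset.mul_prod_erase Ξ _ hξ]
  ring

lemma sum_LB [Infinite k] (j : Fin n) :
    ∑ ξ ∈ Ξ, LB Ξ j ξ = X (Fin.last n) ^ (m - 1) := by
  apply eq_of_eval_last
  intro p hp
  rw [map_sum, map_pow, eval_X, ← h.sum_hom hp (x := p j.castSucc)]
  exact Finset.sum_congr rfl fun ξ _ => eval_LB j ξ p

lemma sum_EE [Infinite k] (n : ℕ) :
    ∑ a ∈ grid Ξ n, EE Ξ a = X (Fin.last n) ^ (n * (m - 1)) := by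
  rw [grid]
  have h1 := (Finset.prod_univ_sum (fun _ : Fin n => Ξ) (fun j ξ => LB Ξ j ξ)).symm
  simp only [EE]
  rw [h1, Finset.prod_congr rfl (fun j _ => sum_LB h j), Finset.prod_const, Finset.card_univ,
    Fintype.card_fin, ← pow_mul, mul_comm]

lemma LB_hom (j : Fin n) {ξ : k} (hξ : ξ ∈ Ξ) : (LB Ξ j ξ).IsHomogeneous (m - 1) := by
  have h1 : (∏ η ∈ Ξ.erase ξ, (X j.castSucc - C η * X (Fin.last n) :
      MvPolynomial (Fin (n + 1)) k)).IsHomogeneous (∑ _η ∈ Ξ.erase ξ, 1) := by
    refine IsHomogeneous.prod _ _ _ fun η _ => (isHomogeneous_X k _).sub ?_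
    have := (isHomogeneous_C (Fin (n + 1)) η).mul (isHomogeneous_X k (Fin.last n))
    rwa [zero_add] at this
  rw [Finset.sum_const, Finset.card_erase_of_mem hξ, h.card, smul_eq_mul, mul_one] at h1
  have := (isHomogeneous_C (Fin (n + 1)) (wt Ξ ξ)).mul h1
  rwa [zero_add] at this

lemma EE_hom {a : Fin n → k} (ha : a ∈ grid Ξ n) : (EE Ξ a).IsHomogeneous (n * (m - 1)) := by
  have h1 : (EE Ξ a).IsHomogeneous (∑ _j : Fin n, (m - 1)) :=
    IsHomogeneous.prod _ _ _ fun j _ => LB_hom h j (Fintype.mem_piFinset.1 ha j)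
  rwa [Finset.sum_const, Finset.card_univ, Fintype.card_fin, smul_eq_mul] at h1

lemma eval_EE {a b : Fin n → k} (ha : a ∈ grid Ξ n) (hb : b ∈ grid Ξ n) :
    eval (pt b) (EE Ξ a) = if b = a then 1 else 0 := by
  rw [EE, map_prod]
  simp only [eval_LB, pt_castSucc, pt_last, mul_one]
  split_ifs with hab
  · subst hab
    exact Finset.prod_eq_one fun j _ => h.basis_self (Fintype.mem_piFinset.1 ha j)
  · obtain ⟨j, hj⟩ := Function.ne_iff.1 hab
    exact Finset.prod_eq_zero (Finset.mem_univ j) (h.basis_ne (Fintype.mem_piFinset.1 hb j) hj)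

lemma mk_EE (a : Fin n → k) (ha : a ∈ grid Ξ n) :
    Ideal.Quotient.mk (Ideal.span {X (Fin.last n)}) (EE Ξ a) =
      Ideal.Quotient.mk (Ideal.span {X (Fin.last n)})
        (C (∏ j, wt Ξ (a j)) * ∏ j : Fin n, X j.castSucc ^ (m - 1)) := by
  rw [EE, map_prod, map_mul, map_prod, map_prod, map_prod, ← Finset.prod_mul_distrib]
  refine Finset.prod_congr rfl fun j _ => ?_
  rw [LB, map_mul, map_prod]
  congr 1
  have hX : Ideal.Quotient.mk (Ideal.span {X (Fin.last n)})
      (X (Fin.last n) : MvPolynomial (Fin (n + 1)) k) = 0 :=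
    Ideal.Quotient.eq_zero_iff_mem.2 (Ideal.mem_span_singleton_self _)
  simp only [map_sub, map_mul, hX, mul_zero, sub_zero]
  rw [Finset.prod_const, Finset.card_erase_of_mem (Fintype.mem_piFinset.1 ha j), h.card, map_pow]

/-- Interpolation in degree `n(m-1)-1`. -/
lemma interp {x : (Fin n → k) → k} (hn : 1 ≤ n)
    (hx : ∑ a ∈ grid Ξ n, x a * ∏ j, wt Ξ (a j) = 0) :
    ∃ y : MvPolynomial (Fin (n + 1)) k, y.IsHomogeneous (n * (m - 1) - 1) ∧
      ∀ a ∈ grid Ξ n, eval (pt a) y = x a := by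
  set G : MvPolynomial (Fin (n + 1)) k := ∑ a ∈ grid Ξ n, C (x a) * EE Ξ a with hG
  have hGhom : G.IsHomogeneous (n * (m - 1)) := by
    refine IsHomogeneous.sum _ _ _ fun a ha => ?_
    have := (isHomogeneous_C (Fin (n + 1)) (x a)).mul (EE_hom h ha)
    rwa [zero_add] at this
  have hGev : ∀ b ∈ grid Ξ n, eval (pt b) G = x b := by
    intro b hb
    rw [hG, map_sum]
    simp only [map_mul, eval_C]
    rw [Finset.sum_eq_single b]
    · rw [eval_EE h hb hb, if_pos rfl, mul_one]
    · intro a ha hne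
      rw [eval_EE h ha hb, if_neg (Ne.symm hne), mul_zero]
    · intro hb'; exact absurd hb hb'
  have hmem : G ∈ Ideal.span {(X (Fin.last n) : MvPolynomial (Fin (n + 1)) k)} := by
    rw [← Ideal.Quotient.eq_zero_iff_mem, hG, map_sum]
    have h1 : ∀ a ∈ grid Ξ n, Ideal.Quotient.mk (Ideal.span {X (Fin.last n)})
        (C (x a) * EE Ξ a) = Ideal.Quotient.mk (Ideal.span {X (Fin.last n)})
          (C (x a * ∏ j, wt Ξ (a j)) * ∏ j : Fin n, X j.castSucc ^ (m - 1)) := by
      intro a ha
      rw [map_mul, mk_EE h a ha, ← map_mul, ← mul_assoc, ← C_mul]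
    rw [Finset.sum_congr rfl h1, ← map_sum, ← Finset.sum_mul, ← map_sum, hx, C_0, zero_mul,
      map_zero]
  obtain ⟨y, hy⟩ := Ideal.mem_span_singleton.1 hmem
  have hpos : 1 ≤ n * (m - 1) := by
    have := h.two_le
    exact Nat.mul_pos hn (by omega)
  refine ⟨homogeneousComponent (n * (m - 1) - 1) y, comp_isHom _ _, fun a ha => ?_⟩
  have h1 : G = X (Fin.last n) * homogeneousComponent (n * (m - 1) - 1) y := by
    conv_lhs => rw [← comp_self hGhom, hy, comp_mul_of_le (isHomogeneous_X k _) y hpos]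
  have h2 := hGev a ha
  rw [h1, map_mul, eval_X, pt_last, one_mul] at h2
  exact h2

end

section vanishing

variable {k : Type*} [Field k] [DecidableEq k] {m : ℕ} {Ξ : Finset k} {n : ℕ}

/-- The forms `c_j (X_j X_last^{m-1} - X_j^m)`. -/
noncomputable def FF (m : ℕ) (c : Fin n → k) (j : Fin n) : MvPolynomial (Fin (n + 1)) k :=
  C (c j) * (X j.castSucc * X (Fin.last n) ^ (m - 1) - X j.castSucc ^ m)

lemma FF_hom (hm : 1 ≤ m) (c : Fin n → k) (j : Fin n) : (FF m c j).IsHomogeneous m := by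
  have h1 : (X j.castSucc * X (Fin.last n) ^ (m - 1) :
      MvPolynomial (Fin (n + 1)) k).IsHomogeneous m := by
    have := (isHomogeneous_X k j.castSucc).mul ((isHomogeneous_X k (Fin.last n)).pow (m - 1))
    rw [one_mul] at this
    have h2 : 1 + (m - 1) = m := by omega
    rwa [h2] at this
  have h2 : (X j.castSucc ^ m : MvPolynomial (Fin (n + 1)) k).IsHomogeneous m := by
    have := (isHomogeneous_X k j.castSucc).pow m
    rwa [one_mul] at this
  have := (isHomogeneous_C (Fin (n + 1)) (c j)).mul (h1.sub h2)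
  rwa [zero_add] at this

lemma ell_zero : ell (0 : Fin n → k) = X (Fin.last n) := by
  simp [ell]

/-- `X_last` is regular modulo the forms `FF`. -/
lemma last_regular [IsAlgClosed k] [CharZero k] (hm : 2 ≤ m) {c : Fin n → k}
    (hc : ∀ j, c j ≠ 0) (g : MvPolynomial (Fin (n + 1)) k)
    (hg : X (Fin.last n) * g ∈ Ideal.span (Set.range (FF m c))) :
    g ∈ Ideal.span (Set.range (FF m c)) := by
  have hphi : ∀ j, phi (0 : Fin n → k) (FF m c j) = -(C (c j) * X j ^ m) := by
    intro j
    have hL : Lv (0 : Fin n → k) = 0 := by simp [Lv]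
    have hC : phi (0 : Fin n → k) (C (c j)) = C (c j) := by
      rw [← algebraMap_eq, AlgHom.commutes, algebraMap_eq]
    rw [FF, map_mul, map_sub, map_mul, map_pow, map_pow, phi_X_castSucc, phi_X_last, hL,
      zero_pow (by omega), mul_zero, zero_sub, hC]
    ring
  have hgood : Good m fun j => phi (0 : Fin n → k) (FF m c j) := by
    apply good (by omega)
    · exact fun j => phi_hom _ (FF_hom (by omega) c j)
    · intro a ha
      funext j
      have := ha j
      simp only [hphi, map_neg, map_mul, eval_C, map_pow, eval_X, neg_eq_zero, mul_eq_zero] at this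
      exact pow_eq_zero_iff (by omega) |>.1 (this.resolve_left (hc j))
  have h1 := (reg_chain (0 : Fin n → k) (FF_hom (by omega : 1 ≤ m) c) hgood.reg).2 g
  rw [ell_zero] at h1
  exact h1 hg

lemma last_pow_regular [IsAlgClosed k] [CharZero k] (hm : 2 ≤ m) {c : Fin n → k}
    (hc : ∀ j, c j ≠ 0) (N : ℕ) (g : MvPolynomial (Fin (n + 1)) k)
    (hg : X (Fin.last n) ^ N * g ∈ Ideal.span (Set.range (FF m c))) :
    g ∈ Ideal.span (Set.range (FF m c)) := by
  induction N with
  | zero => simpa using hg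
  | succ N ih =>
    apply ih
    apply last_regular hm hc
    rwa [← mul_assoc, ← pow_succ']

/-- Homogeneous evaluation on a line. -/
lemma aeval_line {σ : Type*} {e : ℕ} {g : MvPolynomial σ k} (hg : g.IsHomogeneous e) {B : Type*}
    [CommRing B] [Algebra k B] (p : σ → k) (w : B) :
    aeval (fun i => algebraMap k B (p i) * w) g = algebraMap k B (eval p g) * w ^ e := by
  classical
  conv_lhs => rw [g.as_sum]
  conv_rhs => rw [g.as_sum]
  rw [map_sum, map_sum, map_sum, Finset.sum_mul]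
  refine Finset.sum_congr rfl fun s hs => ?_
  rw [aeval_monomial, eval_monomial, map_mul, mul_assoc]
  congr 1
  have hdeg : s.degree = e := by
    by_contra hne
    exact (mem_support_iff.1 hs) (hg.coeff_eq_zero hne)
  have hsum : s.degree = ∑ i ∈ s.support, s i := rfl
  rw [← hdeg, hsum, Finsupp.prod, Finsupp.prod, map_prod, ← Finset.prod_pow_eq_pow_sum,
    ← Finset.prod_mul_distrib]
  refine Finset.prod_congr rfl fun i _ => ?_
  rw [mul_pow, map_pow]

lemma EE_colon [Infinite k] (h : RootSet m Ξ) {c : Fin n → k} (hc : ∀ j, c j ≠ 0)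
    {a : Fin n → k} (ha : a ∈ grid Ξ n) (g : MvPolynomial (Fin (n + 1)) k) :
    (g - aeval (fun i => algebraMap k (MvPolynomial (Fin (n + 1)) k) (pt a i) *
      X (Fin.last n)) g) * EE Ξ a ∈ Ideal.span (Set.range (FF m c)) := by
  set I := Ideal.span (Set.range (FF m c)) with hI
  have hX : ∀ i, (X i - algebraMap k (MvPolynomial (Fin (n + 1)) k) (pt a i) *
      X (Fin.last n)) * EE Ξ a ∈ I := by
    intro i
    refine Fin.lastCases ?_ (fun j => ?_) i
    · rw [pt_last, map_one, one_mul, sub_self, zero_mul]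
      exact I.zero_mem
    · rw [pt_castSucc, EE, ← Finset.mul_prod_erase _ _ (Finset.mem_univ j), ← mul_assoc,
        algebraMap_eq, LB_mul h j (Fintype.mem_piFinset.1 ha j)]
      refine I.mul_mem_right _ (I.mul_mem_left _ ?_)
      have h1 : (X j.castSucc ^ m - X j.castSucc * X (Fin.last n) ^ (m - 1) :
          MvPolynomial (Fin (n + 1)) k) = -(C (c j)⁻¹ * FF m c j) := by
        rw [FF, ← mul_assoc, ← C_mul, inv_mul_cancel₀ (hc j), C_1]
        ring
      rw [h1]
      exact I.neg_mem (I.mul_mem_left _ (Ideal.subset_span ⟨j, rfl⟩))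
  induction g using MvPolynomial.induction_on with
  | C x =>
    rw [← algebraMap_eq, AlgHom.commutes, sub_self, zero_mul]
    exact I.zero_mem
  | add p q hp hq =>
    rw [map_add, add_sub_add_comm, add_mul]
    exact I.add_mem hp hq
  | mul_X p i hp =>
    rw [map_mul, aeval_X]
    have h2 : ∀ p' x' y E : MvPolynomial (Fin (n + 1)) k,
        (p * y - p' * x') * E = y * ((p - p') * E) + p' * ((y - x') * E) := by
      intro p' x' y E; ring
    rw [h2]
    exact I.add_mem (I.mul_mem_left _ hp) (I.mul_mem_left _ (hX i))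

/-- Forms vanishing on the grid lie in the ideal. -/
lemma mem_of_vanish [IsAlgClosed k] [CharZero k] (h : RootSet m Ξ) {c : Fin n → k}
    (hc : ∀ j, c j ≠ 0) {e : ℕ} {g : MvPolynomial (Fin (n + 1)) k} (hg : g.IsHomogeneous e)
    (hv : ∀ a ∈ grid Ξ n, eval (pt a) g = 0) : g ∈ Ideal.span (Set.range (FF m c)) := by
  have : Infinite k := IsAlgClosed.instInfinite
  apply last_pow_regular h.two_le hc (n * (m - 1))
  rw [← sum_EE h n, Finset.sum_mul]
  refine Ideal.sum_mem _ fun a ha => ?_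
  have h1 := EE_colon h hc ha g
  rw [aeval_line hg, hv a ha, map_zero, zero_mul, sub_zero] at h1
  rwa [mul_comm]

/-- The last partial derivative of the special form (at `t = 0`). -/
noncomputable def FL (m : ℕ) (c : Fin n → k) : MvPolynomial (Fin (n + 1)) k :=
  ∑ j, C (c j * (((m : k) - 1) * 2⁻¹)) * (X j.castSucc ^ 2 * X (Fin.last n) ^ (m - 2))

lemma FL_hom (hm : 2 ≤ m) (c : Fin n → k) : (FL m c).IsHomogeneous m := by
  refine IsHomogeneous.sum _ _ _ fun j _ => ?_
  have h1 : (X j.castSucc ^ 2 * X (Fin.last n) ^ (m - 2) :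
      MvPolynomial (Fin (n + 1)) k).IsHomogeneous m := by
    have := ((isHomogeneous_X k j.castSucc).pow 2).mul
      ((isHomogeneous_X k (Fin.last n)).pow (m - 2))
    have h2 : 1 * 2 + 1 * (m - 2) = m := by omega
    rwa [h2] at this
  have := (isHomogeneous_C (Fin (n + 1)) (c j * (((m : k) - 1) * 2⁻¹))).mul h1
  rwa [zero_add] at this

lemma eval_FL (m : ℕ) (c a : Fin n → k) :
    eval (pt a) (FL m c) = ((m : k) - 1) * 2⁻¹ * ∑ j, c j * a j ^ 2 := by
  rw [FL, map_sum, Finset.mul_sum]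
  refine Finset.sum_congr rfl fun j _ => ?_
  simp only [map_mul, eval_C, map_pow, eval_X, pt_castSucc, pt_last, one_pow, mul_one]
  ring

/-- **(E1)** In the critical degree the special singular form has one-dimensional quotient,
spanned by a power of the last variable. -/
lemma crit [IsAlgClosed k] [CharZero k] (h : RootSet m Ξ) (hn : 1 ≤ n) {c : Fin n → k}
    (hc : ∀ j, c j ≠ 0) (hc2 : ∀ a ∈ grid Ξ n, a ≠ 0 → ∑ j, c j * a j ^ 2 ≠ 0)
    {g : MvPolynomial (Fin (n + 1)) k} (hg : g.IsHomogeneous ((n + 1) * (m - 1))) :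
    ∃ μ : k, g - C μ * X (Fin.last n) ^ ((n + 1) * (m - 1)) ∈
      Ideal.span (Set.range (FF m c)) ⊔ Ideal.span {FL m c} := by
  have hm := h.two_le
  set μ : k := eval (pt 0) g with hμ
  have hκ : ∀ a ∈ grid Ξ n, a ≠ 0 → eval (pt a) (FL m c) ≠ 0 := by
    intro a ha ha0
    rw [eval_FL]
    refine mul_ne_zero (mul_ne_zero ?_ (inv_ne_zero two_ne_zero)) (hc2 a ha ha0)
    rw [sub_ne_zero]
    have : ((m : ℕ) : k) ≠ ((1 : ℕ) : k) := by
      rw [Ne, Nat.cast_inj]; omega
    simpa using this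
  have h0 : (0 : Fin n → k) ∈ grid Ξ n := Fintype.mem_piFinset.2 fun _ => h.zero_mem
  set x₁ : (Fin n → k) → k := fun a => (eval (pt a) g - μ) / eval (pt a) (FL m c) with hx₁
  set W : k := ∏ j : Fin n, wt Ξ ((0 : Fin n → k) j) with hW
  have hW0 : W ≠ 0 := Finset.prod_ne_zero_iff.2 fun j _ => h.wt_ne_zero h.zero_mem
  set x : (Fin n → k) → k := fun a => if a = 0 then
    -(∑ b ∈ (grid Ξ n).erase 0, x₁ b * ∏ j, wt Ξ (b j)) / W else x₁ a with hx
  have hsum : ∑ a ∈ grid Ξ n, x a * ∏ j, wt Ξ (a j) = 0 := by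
    rw [← Finset.add_sum_erase _ _ h0]
    have h1 : ∑ a ∈ (grid Ξ n).erase 0, x a * ∏ j, wt Ξ (a j) =
        ∑ b ∈ (grid Ξ n).erase 0, x₁ b * ∏ j, wt Ξ (b j) := by
      refine Finset.sum_congr rfl fun a ha => ?_
      rw [hx]
      simp only
      rw [if_neg (Finset.ne_of_mem_erase ha)]
    rw [h1]
    have h2 : x 0 * W = -(∑ b ∈ (grid Ξ n).erase 0, x₁ b * ∏ j, wt Ξ (b j)) := by
      rw [hx]
      simp only [if_true]
      exact div_mul_cancel₀ _ hW0
    rw [h2]
    ring
  obtain ⟨y, hy, hyev⟩ := interp h hn hsum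
  refine ⟨μ, ?_⟩
  have hpos : 1 ≤ n * (m - 1) := Nat.mul_pos hn (by omega)
  have hdeg : m + (n * (m - 1) - 1) = (n + 1) * (m - 1) := by
    have : (n + 1) * (m - 1) = n * (m - 1) + (m - 1) := by ring
    omega
  have hmem : g - C μ * X (Fin.last n) ^ ((n + 1) * (m - 1)) - FL m c * y ∈
      Ideal.span (Set.range (FF m c)) := by
    apply mem_of_vanish h hc (e := (n + 1) * (m - 1))
    · refine (hg.sub ?_).sub ?_
      · have := (isHomogeneous_C (Fin (n + 1)) μ).mul
          ((isHomogeneous_X k (Fin.last n)).pow ((n + 1) * (m - 1)))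
        rwa [zero_add, one_mul] at this
      · have := (FL_hom hm c).mul hy
        rwa [hdeg] at this
    · intro a ha
      simp only [map_sub, map_mul, eval_C, map_pow, eval_X, pt_last, one_pow, mul_one]
      rw [hyev a ha]
      by_cases ha0 : a = 0
      · subst ha0
        rw [eval_FL]
        simp [hμ]
      · rw [hx]
        simp only
        rw [if_neg ha0, hx₁]
        simp only
        rw [mul_div_cancel₀ _ (hκ a ha ha0), sub_self]
  have : g - C μ * X (Fin.last n) ^ ((n + 1) * (m - 1)) =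
    (g - C μ * X (Fin.last n) ^ ((n + 1) * (m - 1)) - FL m c * y) + FL m c * y := by ring
  rw [this]
  exact Ideal.add_mem _ (Ideal.mem_sup_left hmem)
    (Ideal.mem_sup_right (Ideal.mul_mem_right _ _ (Ideal.subset_span rfl)))

end vanishing

end Pool.Agent.H687.AF
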