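import Mathlib
import Pool.Agent.H687.AF.Grid

/-!
# The one-parameter family and the functional
-/

set_option autoImplicit false
set_option linter.unusedSectionVars false
set_option linter.unusedVariables false

open MvPolynomial

namespace Pool.Agent.H687.AF

section

variable {k : Type*} [Field k] [DecidableEq k] {m : ℕ} {Ξ : Finset k} {n : ℕ}

lemma exists_c [IsAlgClosed k] (h : RootSet m Ξ) (n : ℕ) :
    ∃ c : Fin n → k, (∀ j, c j ≠ 0) ∧ ∀ a ∈ grid Ξ n, a ≠ 0 → ∑ j, c j * a j ^ 2 ≠ 0 := by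
  have : Infinite k := IsAlgClosed.instInfinite
  let q : (Fin n → k) → Polynomial k := fun a => ∑ j : Fin n, Polynomial.C (a j ^ 2) *
    Polynomial.X ^ (j : ℕ)
  have hq : ∀ a t, (q a).eval t = ∑ j : Fin n, t ^ (j : ℕ) * a j ^ 2 := by
    intro a t
    simp only [q, Polynomial.eval_finsetSum, Polynomial.eval_mul, Polynomial.eval_C,
      Polynomial.eval_pow, Polynomial.eval_X]
    exact Finset.sum_congr rfl fun i _ => mul_comm _ _
  have hq0 : ∀ a ∈ (grid Ξ n).erase 0, q a ≠ 0 := by
    intro a ha h0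
    apply Finset.ne_of_mem_erase ha
    ext i
    have h1 := congrArg (fun p : Polynomial k => p.coeff (i : ℕ)) h0
    simp only [q, Polynomial.finsetSum_coeff, Polynomial.coeff_C_mul_X_pow,
      Polynomial.coeff_zero] at h1
    rw [Finset.sum_eq_single i] at h1
    · simpa using h1
    · intro j _ hj
      rw [if_neg]
      intro h
      exact hj (Fin.ext h.symm)
    · intro h
      exact absurd (Finset.mem_univ i) h
  have hprod : Polynomial.X * ∏ a ∈ (grid Ξ n).erase 0, q a ≠ 0 :=
    mul_ne_zero Polynomial.X_ne_zero (Finset.prod_ne_zero_iff.2 hq0)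
  obtain ⟨t, ht⟩ : ∃ t, (Polynomial.X * ∏ a ∈ (grid Ξ n).erase 0, q a).eval t ≠ 0 := by
    by_contra h
    push Not at h
    exact hprod (Polynomial.funext fun t => by rw [h t, Polynomial.eval_zero])
  rw [Polynomial.eval_mul, Polynomial.eval_X, Polynomial.eval_prod] at ht
  refine ⟨fun j => t ^ (j : ℕ), fun j => pow_ne_zero _ (left_ne_zero_of_mul ht), ?_⟩
  intro a ha ha0
  rw [← hq]
  exact (Finset.prod_ne_zero_iff.1 (right_ne_zero_of_mul ht)) a (Finset.mem_erase.2 ⟨ha0, ha⟩)

/-! ### the special form -/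

/-- The singular special form. -/
noncomputable def f0 (d : ℕ) (c : Fin n → k) : MvPolynomial (Fin (n + 1)) k :=
  ∑ j, C (c j) * (C 2⁻¹ * (X j.castSucc ^ 2 * X (Fin.last n) ^ (d - 2)) -
    C (d : k)⁻¹ * X j.castSucc ^ d)

lemma f0_hom {d : ℕ} (hd : 3 ≤ d) (c : Fin n → k) : (f0 d c).IsHomogeneous d := by
  refine IsHomogeneous.sum _ _ _ fun j _ => ?_
  have h1 : (C 2⁻¹ * (X j.castSucc ^ 2 * X (Fin.last n) ^ (d - 2)) :
      MvPolynomial (Fin (n + 1)) k).IsHomogeneous d := by
    have := (isHomogeneous_C (Fin (n + 1)) (2⁻¹ : k)).mul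
      (((isHomogeneous_X k j.castSucc).pow 2).mul ((isHomogeneous_X k (Fin.last n)).pow (d - 2)))
    have h2 : 0 + (1 * 2 + 1 * (d - 2)) = d := by omega
    rwa [h2] at this
  have h2 : (C (d : k)⁻¹ * X j.castSucc ^ d : MvPolynomial (Fin (n + 1)) k).IsHomogeneous d := by
    have := (isHomogeneous_C (Fin (n + 1)) ((d : k)⁻¹)).mul ((isHomogeneous_X k j.castSucc).pow d)
    rwa [zero_add, one_mul] at this
  have := (isHomogeneous_C (Fin (n + 1)) (c j)).mul (h1.sub h2)
  rwa [zero_add] at this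

lemma pderiv_f0_castSucc [CharZero k] {d : ℕ} (hd : 3 ≤ d) (c : Fin n → k) (j : Fin n) :
    pderiv j.castSucc (f0 d c) = FF (d - 1) c j := by
  rw [f0, map_sum, Finset.sum_eq_single j]
  · rw [FF, pderiv_C_mul, map_sub, pderiv_C_mul, pderiv_C_mul]
    congr 1
    have hne : Fin.last n ≠ j.castSucc := (Fin.castSucc_lt_last j).ne'
    rw [(pderiv j.castSucc).leibniz, (pderiv j.castSucc).leibniz_pow,
      (pderiv j.castSucc).leibniz_pow, (pderiv j.castSucc).leibniz_pow, pderiv_X_self,
      pderiv_X_of_ne hne]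
    have h1 : d - 1 - 1 = d - 2 := by omega
    have hd0 : (d : k) ≠ 0 := by rw [Nat.cast_ne_zero]; omega
    simp only [smul_eq_mul, nsmul_eq_mul, mul_zero, zero_add, mul_one, h1]
    have e1 : (C 2⁻¹ : MvPolynomial (Fin (n + 1)) k) * ((2 : ℕ) : MvPolynomial (Fin (n + 1)) k)
        = 1 := by
      rw [← map_natCast C 2, ← C_mul]; norm_num
    have e2 : (C (d : k)⁻¹ : MvPolynomial (Fin (n + 1)) k) *
        ((d : ℕ) : MvPolynomial (Fin (n + 1)) k) = 1 := by
      rw [← map_natCast C d, ← C_mul, inv_mul_cancel₀ hd0, C_1]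
    have e3 : (2 : ℕ) - 1 = 1 := rfl
    rw [e3, pow_one]
    linear_combination (X j.castSucc * X (Fin.last n) ^ (d - 2)) * e1 -
      (X j.castSucc ^ (d - 1)) * e2
  · intro b _ hb
    have hne : b.castSucc ≠ j.castSucc := fun h => hb (Fin.castSucc_injective _ h)
    have hne2 : Fin.last n ≠ j.castSucc := (Fin.castSucc_lt_last j).ne'
    rw [pderiv_C_mul, map_sub, pderiv_C_mul, pderiv_C_mul, (pderiv j.castSucc).leibniz,
      (pderiv j.castSucc).leibniz_pow, (pderiv j.castSucc).leibniz_pow,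
      (pderiv j.castSucc).leibniz_pow, pderiv_X_of_ne hne, pderiv_X_of_ne hne2]
    simp
  · intro h; exact absurd (Finset.mem_univ j) h

lemma pderiv_f0_last [CharZero k] {d : ℕ} (hd : 3 ≤ d) (c : Fin n → k) :
    pderiv (Fin.last n) (f0 d c) = FL (d - 1) c := by
  rw [f0, map_sum, FL]
  refine Finset.sum_congr rfl fun j _ => ?_
  have hne : j.castSucc ≠ Fin.last n := (Fin.castSucc_lt_last j).ne
  rw [pderiv_C_mul, map_sub, pderiv_C_mul, pderiv_C_mul, (pderiv (Fin.last n)).leibniz,
    (pderiv (Fin.last n)).leibniz_pow, (pderiv (Fin.last n)).leibniz_pow,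
    (pderiv (Fin.last n)).leibniz_pow, pderiv_X_self, pderiv_X_of_ne hne]
  have h1 : d - 1 - 2 = d - 2 - 1 := by omega
  simp only [smul_eq_mul, nsmul_eq_mul, mul_zero, add_zero, mul_one, h1, sub_zero]
  have e1 : ((d - 2 : ℕ) : MvPolynomial (Fin (n + 1)) k) = C (((d - 1 : ℕ) : k) - 1) := by
    rw [← map_natCast C (d - 2)]
    congr 1
    rw [Nat.cast_sub (by omega), Nat.cast_sub (by omega)]
    push_cast
    ring
  rw [e1, C_mul, C_mul]
  ring

variable {A : Type*} [CommRing A] [Algebra k A]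

/-- The deformed form. -/
noncomputable def ft (d : ℕ) (c : Fin n → k) (t : A) : MvPolynomial (Fin (n + 1)) A :=
  map (algebraMap k A) (f0 d c) + C (t * algebraMap k A (d : k)⁻¹) * X (Fin.last n) ^ d

lemma ft_hom {d : ℕ} (hd : 3 ≤ d) (c : Fin n → k) (t : A) : (ft d c t).IsHomogeneous d := by
  refine ((f0_hom hd c).map _).add ?_
  have := (isHomogeneous_C (Fin (n + 1)) (t * algebraMap k A (d : k)⁻¹)).mul
    ((isHomogeneous_X A (Fin.last n)).pow d)
  rwa [zero_add, one_mul] at this

/-- The coefficients of the deformed form. -/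
noncomputable def ct (d : ℕ) (c : Fin n → k) (t : A) : Mon (n + 1) d → A :=
  fun s => coeff s.1 (ft d c t)

lemma form_ct {d : ℕ} (hd : 3 ≤ d) (c : Fin n → k) (t : A) : form (ct d c t) = ft d c t :=
  form_coeff (ft_hom hd c t)

lemma grad_castSucc [CharZero k] {d : ℕ} (hd : 3 ≤ d) (c : Fin n → k) (t : A) (j : Fin n) :
    grad (ct d c t) j.castSucc = map (algebraMap k A) (FF (d - 1) c j) := by
  have hne : Fin.last n ≠ j.castSucc := (Fin.castSucc_lt_last j).ne'
  rw [grad, form_ct hd, ft, map_add, pderiv_map, pderiv_f0_castSucc hd, pderiv_C_mul,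
    (pderiv j.castSucc).leibniz_pow, pderiv_X_of_ne hne]
  simp

lemma grad_last [CharZero k] {d : ℕ} (hd : 3 ≤ d) (c : Fin n → k) (t : A) :
    grad (ct d c t) (Fin.last n) = map (algebraMap k A) (FL (d - 1) c) +
      C t * X (Fin.last n) ^ (d - 1) := by
  rw [grad, form_ct hd, ft, map_add, pderiv_map, pderiv_f0_last hd, pderiv_C_mul,
    (pderiv (Fin.last n)).leibniz_pow, pderiv_X_self]
  congr 1
  have hd0 : (d : k) ≠ 0 := by rw [Nat.cast_ne_zero]; omega
  simp only [smul_eq_mul, nsmul_eq_mul, mul_one]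
  have e1 : (C (t * algebraMap k A (d : k)⁻¹) : MvPolynomial (Fin (n + 1)) A) *
      ((d : ℕ) : MvPolynomial (Fin (n + 1)) A) = C t := by
    rw [← map_natCast C d, ← C_mul]
    congr 1
    rw [mul_assoc, ← map_natCast (algebraMap k A) d, ← map_mul, inv_mul_cancel₀ hd0, map_one,
      mul_one]
  rw [← mul_assoc, e1]

/-! ### Euler–Jacobi -/

lemma sum_monomial (h : RootSet m Ξ) (hn : 1 ≤ n) (s : Fin (n + 1) →₀ ℕ)
    (hs : s.degree = n * (m - 1) - 1) :
    ∑ a ∈ grid Ξ n, (∏ j, wt Ξ (a j)) * ∏ i, pt a i ^ s i = 0 := by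
  have h1 : ∀ a : Fin n → k, (∏ j, wt Ξ (a j)) * ∏ i, pt a i ^ s i =
      ∏ j : Fin n, (a j ^ s j.castSucc * wt Ξ (a j)) := by
    intro a
    rw [Fin.prod_univ_castSucc]
    simp only [pt_castSucc, pt_last, one_pow, mul_one]
    rw [Finset.prod_mul_distrib, mul_comm]
  simp only [h1]
  rw [grid]
  have h2 := (Finset.prod_univ_sum (fun _ : Fin n => Ξ)
    (fun j ξ => ξ ^ s j.castSucc * wt Ξ ξ)).symm
  rw [h2]
  obtain ⟨j, hj⟩ : ∃ j : Fin n, s j.castSucc < m - 1 := by
    by_contra hcon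
    push Not at hcon
    have h3 : n * (m - 1) ≤ ∑ j : Fin n, s j.castSucc := by
      have := Finset.sum_le_sum fun j (_ : j ∈ Finset.univ) => hcon j
      rwa [Finset.sum_const, Finset.card_univ, Fintype.card_fin, smul_eq_mul] at this
    have h4 : s.degree = ∑ i, s i := Finsupp.degree_eq_sum s
    rw [Fin.sum_univ_castSucc] at h4
    have hpos : 1 ≤ n * (m - 1) := Nat.mul_pos hn (by have := h.two_le; omega)
    omega
  exact Finset.prod_eq_zero (Finset.mem_univ j) (h.sum_wt hj)

lemma euler_jacobi (h : RootSet m Ξ) (hn : 1 ≤ n) {b : MvPolynomial (Fin (n + 1)) A}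
    (hb : b.IsHomogeneous (n * (m - 1) - 1)) :
    ∑ a ∈ grid Ξ n, algebraMap k A (∏ j, wt Ξ (a j)) *
      eval (fun i => algebraMap k A (pt a i)) b = 0 := by
  have h1 : ∀ a : Fin n → k, algebraMap k A (∏ j, wt Ξ (a j)) *
      eval (fun i => algebraMap k A (pt a i)) b = ∑ s ∈ b.support, coeff s b *
        algebraMap k A ((∏ j, wt Ξ (a j)) * ∏ i, pt a i ^ s i) := by
    intro a
    rw [eval_eq', Finset.mul_sum]
    refine Finset.sum_congr rfl fun s _ => ?_
    rw [map_mul, map_prod (algebraMap k A) (fun i => pt a i ^ s i)]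
    simp only [map_pow]
    ring
  simp only [h1]
  rw [Finset.sum_comm]
  refine Finset.sum_eq_zero fun s hs => ?_
  rw [← Finset.mul_sum, ← map_sum, sum_monomial h hn s, map_zero, mul_zero]
  by_contra hne
  exact (mem_support_iff.1 hs) (hb.coeff_eq_zero hne)

lemma eval_map_pt (g : MvPolynomial (Fin (n + 1)) k) (p : Fin (n + 1) → k) :
    eval (fun i => algebraMap k A (p i)) (map (algebraMap k A) g) = algebraMap k A (eval p g) := by
  rw [eval_map, eval₂_comp]
  rfl

lemma eval_FF (h : RootSet m Ξ) (c : Fin n → k) {a : Fin n → k} (ha : a ∈ grid Ξ n) (j : Fin n) :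
    eval (pt a) (FF m c j) = 0 := by
  have h1 : a j ^ m = a j := (h.mem_iff _).1 (Fintype.mem_piFinset.1 ha j)
  simp [FF, h1]

lemma eval_pderiv_FF (hm : 2 ≤ m) (c a : Fin n → k) (i j : Fin n) :
    eval (pt a) (pderiv i.castSucc (FF m c j)) =
      if i = j then c j * (1 - (m : k) * a j ^ (m - 1)) else 0 := by
  have hne2 : Fin.last n ≠ i.castSucc := (Fin.castSucc_lt_last i).ne'
  rw [FF, pderiv_C_mul, map_sub, (pderiv i.castSucc).leibniz, (pderiv i.castSucc).leibniz_pow,
    (pderiv i.castSucc).leibniz_pow, pderiv_X_of_ne hne2]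
  by_cases hij : i = j
  · subst hij
    rw [pderiv_X_self, if_pos rfl]
    simp
  · have hne : j.castSucc ≠ i.castSucc := fun h => hij (Fin.castSucc_injective _ h).symm
    rw [pderiv_X_of_ne hne, if_neg hij]
    simp

/-- The Hessian at the points of the grid. -/
lemma eval_Hess_grid [CharZero k] {d : ℕ} (hd : 3 ≤ d) (h : RootSet (d - 1) Ξ) (c : Fin n → k)
    (t : A) {a : Fin n → k} (ha : a ∈ grid Ξ n) :
    algebraMap k A (∏ j, wt Ξ (a j)) *
      eval (fun i => algebraMap k A (pt a i)) (Hess (ct d c t)) =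
    algebraMap k A (((d - 1 : ℕ) : k) * ∏ j, (-c j)) *
      (algebraMap k A (eval (pt a) (FL (d - 1) c)) + t) := by
  set p : Fin (n + 1) → A := fun i => algebraMap k A (pt a i) with hp
  have hid := jac_identity (0 : Fin n → A) (grad (ct d c t)) (grad_hom (ct d c t))
  have hker : (Ideal.span (Set.range fun j : Fin n => grad (ct d c t) j.castSucc)) ≤
      RingHom.ker (eval p) := by
    refine Ideal.span_le.2 ?_
    rintro _ ⟨j, rfl⟩
    show eval p (grad (ct d c t) j.castSucc) = 0
    rw [grad_castSucc hd, hp, eval_map_pt, eval_FF h c ha, map_zero]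
  have h1 := hker hid
  rw [RingHom.mem_ker] at h1
  have hell : eval p (ell (0 : Fin n → A)) = 1 := by
    simp [ell, hp]
  have hlast : eval p (grad (ct d c t) (Fin.last n)) =
      algebraMap k A (eval (pt a) (FL (d - 1) c)) + t := by
    rw [grad_last hd, map_add, hp, eval_map_pt]
    simp
  have hjac' : eval p (jac' 0 (grad (ct d c t))) =
      algebraMap k A (∏ j, (c j * (1 - ((d - 1 : ℕ) : k) * a j ^ (d - 1 - 1)))) := by
    have hM : (Matrix.of fun i j : Fin n => pderiv i.castSucc (grad (ct d c t) j.castSucc) +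
        C ((0 : Fin n → A) i) * pderiv (Fin.last n) (grad (ct d c t) j.castSucc)) =
        Matrix.of fun i j : Fin n => map (algebraMap k A) (pderiv i.castSucc (FF (d - 1) c j)) := by
      ext1 i j
      simp only [Matrix.of_apply, Pi.zero_apply, C_0, zero_mul, add_zero]
      rw [grad_castSucc hd, pderiv_map]
    rw [jac', hM, RingHom.map_det, map_prod, ← Matrix.det_diagonal]
    congr 1
    ext1 i j
    simp only [RingHom.mapMatrix_apply, Matrix.map_apply, Matrix.of_apply]
    rw [hp, eval_map_pt, eval_pderiv_FF (by omega), Matrix.diagonal_apply]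
    by_cases hij : i = j
    · rw [if_pos hij, if_pos hij, hij]
    · rw [if_neg hij, if_neg hij, map_zero]
  rw [map_sub, map_mul, map_mul, map_mul, hell, one_mul, hlast, hjac', sub_eq_zero,
    map_natCast] at h1
  have h2 : (∏ j, wt Ξ (a j)) * (((d - 1 : ℕ) : k) *
      ∏ j, (c j * (1 - ((d - 1 : ℕ) : k) * a j ^ (d - 1 - 1)))) =
      ((d - 1 : ℕ) : k) * ∏ j, (-c j) := by
    rw [mul_left_comm, ← Finset.prod_mul_distrib]
    congr 1
    refine Finset.prod_congr rfl fun j _ => ?_
    have h3 := h.wt_mul (Fintype.mem_piFinset.1 ha j)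
    linear_combination (-c j) * h3
  rw [Hess, h1, ← h2]
  simp only [map_mul, map_natCast]
  ring

end

/-! ### the functional over `k[t]` -/

section omega

variable {k : Type*} [Field k] [DecidableEq k] {m : ℕ} {Ξ : Finset k} {n : ℕ}

/-- The value of the last derivative at a grid point. -/
noncomputable def Phi (m : ℕ) (c b : Fin n → k) : Polynomial k :=
  algebraMap k (Polynomial k) (eval (pt b) (FL m c)) + Polynomial.X

/-- The functional. -/
noncomputable def om (m : ℕ) (Ξ : Finset k) (c : Fin n → k)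
    (g : MvPolynomial (Fin (n + 1)) (Polynomial k)) : Polynomial k :=
  ∑ a ∈ grid Ξ n, (∏ b ∈ (grid Ξ n).erase a, Phi m c b) *
    (algebraMap k (Polynomial k) (∏ j, wt Ξ (a j)) *
      eval (fun i => algebraMap k (Polynomial k) (pt a i)) g)

lemma om_sub (c : Fin n → k) (g g' : MvPolynomial (Fin (n + 1)) (Polynomial k)) :
    om m Ξ c (g - g') = om m Ξ c g - om m Ξ c g' := by
  rw [om, om, om, ← Finset.sum_sub_distrib]
  refine Finset.sum_congr rfl fun a _ => ?_
  rw [map_sub]
  ring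

lemma om_C_mul (c : Fin n → k) (u : Polynomial k)
    (g : MvPolynomial (Fin (n + 1)) (Polynomial k)) :
    om m Ξ c (C u * g) = u * om m Ξ c g := by
  rw [om, om, Finset.mul_sum]
  refine Finset.sum_congr rfl fun a _ => ?_
  rw [map_mul, eval_C]
  ring

lemma om_Hess [CharZero k] {d : ℕ} (hd : 3 ≤ d) (h : RootSet (d - 1) Ξ) (c : Fin n → k) :
    om (d - 1) Ξ c (Hess (ct d c (Polynomial.X : Polynomial k))) =
      ((grid Ξ n).card : Polynomial k) *
        (algebraMap k (Polynomial k) (((d - 1 : ℕ) : k) * ∏ j, (-c j)) *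
          ∏ b ∈ grid Ξ n, Phi (d - 1) c b) := by
  rw [om, ← nsmul_eq_mul, ← Finset.sum_const]
  refine Finset.sum_congr rfl fun a ha => ?_
  rw [eval_Hess_grid hd h c _ ha, ← Finset.mul_prod_erase _ _ ha, Phi]
  ring

lemma om_J [CharZero k] {d : ℕ} (hd : 3 ≤ d) (hn : 1 ≤ n) (h : RootSet (d - 1) Ξ)
    (c : Fin n → k) {x : MvPolynomial (Fin (n + 1)) (Polynomial k)}
    (hx : x ∈ J (ct d c (Polynomial.X : Polynomial k)))
    (hxh : x.IsHomogeneous ((n + 1) * (d - 2))) : om (d - 1) Ξ c x = 0 := by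
  obtain ⟨b, hb⟩ := (Ideal.mem_span_range_iff_exists_fun).1 hx
  have hpos : 1 ≤ n * (d - 2) := Nat.mul_pos hn (by omega)
  have hdeg : (n + 1) * (d - 2) = (d - 1) + (n * (d - 2) - 1) := by
    have : (n + 1) * (d - 2) = n * (d - 2) + (d - 2) := by ring
    omega
  have hx2 : x = ∑ i, homogeneousComponent (n * (d - 2) - 1) (b i) *
      grad (ct d c (Polynomial.X : Polynomial k)) i := by
    conv_lhs => rw [← comp_self hxh, ← hb, map_sum]
    refine Finset.sum_congr rfl fun i _ => ?_
    rw [mul_comm (b i), hdeg, comp_mul_of_le (grad_hom _ i) (b i) (by omega),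
      Nat.add_sub_cancel_left, mul_comm]
  have heval : ∀ a ∈ grid Ξ n, eval (fun i => algebraMap k (Polynomial k) (pt a i)) x =
      eval (fun i => algebraMap k (Polynomial k) (pt a i))
        (homogeneousComponent (n * (d - 2) - 1) (b (Fin.last n))) * Phi (d - 1) c a := by
    intro a ha
    conv_lhs => rw [hx2]
    rw [map_sum, Fin.sum_univ_castSucc]
    have h1 : ∀ j : Fin n, eval (fun i => algebraMap k (Polynomial k) (pt a i))
        (homogeneousComponent (n * (d - 2) - 1) (b j.castSucc) *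
          grad (ct d c (Polynomial.X : Polynomial k)) j.castSucc) = 0 := by
      intro j
      rw [map_mul, grad_castSucc hd, eval_map_pt, eval_FF h c ha, map_zero, mul_zero]
    rw [Finset.sum_eq_zero fun j _ => h1 j, zero_add, map_mul, grad_last hd, map_add,
      eval_map_pt, Phi]
    congr 2
    simp
  have h2 : ∀ a ∈ grid Ξ n, (∏ b ∈ (grid Ξ n).erase a, Phi (d - 1) c b) *
    (algebraMap k (Polynomial k) (∏ j, wt Ξ (a j)) *
      eval (fun i => algebraMap k (Polynomial k) (pt a i)) x) =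
      (∏ b ∈ grid Ξ n, Phi (d - 1) c b) * (algebraMap k (Polynomial k) (∏ j, wt Ξ (a j)) *
        eval (fun i => algebraMap k (Polynomial k) (pt a i))
          (homogeneousComponent (n * (d - 2) - 1) (b (Fin.last n)))) := by
    intro a ha
    rw [heval a ha, ← Finset.mul_prod_erase _ _ ha]
    ring
  rw [om, Finset.sum_congr rfl h2, ← Finset.mul_sum]
  have hb' : (homogeneousComponent (n * (d - 2) - 1) (b (Fin.last n))).IsHomogeneous
      (n * (d - 1 - 1) - 1) := by
    have : d - 1 - 1 = d - 2 := by omega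
    rw [this]
    exact comp_isHom _ _
  rw [euler_jacobi h hn hb', mul_zero]

lemma not_sq_dvd [CharZero k] {d : ℕ} (hd : 3 ≤ d) (h : RootSet (d - 1) Ξ) (c : Fin n → k)
    (hc : ∀ j, c j ≠ 0) (hc2 : ∀ a ∈ grid Ξ n, a ≠ 0 → ∑ j, c j * a j ^ 2 ≠ 0) :
    ¬ (Polynomial.X : Polynomial k) ^ 2 ∣
      om (d - 1) Ξ c (Hess (ct d c (Polynomial.X : Polynomial k))) := by
  rw [om_Hess hd h]
  have h0 : (0 : Fin n → k) ∈ grid Ξ n := Fintype.mem_piFinset.2 fun _ => h.zero_mem
  have hP0 : Phi (d - 1) c (0 : Fin n → k) = Polynomial.X := by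
    rw [Phi, eval_FL]
    simp
  rw [← Finset.mul_prod_erase _ _ h0, hP0]
  rintro ⟨w, hw⟩
  have h1 : (Polynomial.X : Polynomial k) * (((grid Ξ n).card : Polynomial k) *
      (algebraMap k (Polynomial k) (((d - 1 : ℕ) : k) * ∏ j, (-c j)) *
        ∏ b ∈ (grid Ξ n).erase 0, Phi (d - 1) c b)) = Polynomial.X * (Polynomial.X * w) := by
    linear_combination hw
  have h2 := mul_left_cancel₀ Polynomial.X_ne_zero h1
  have h3 := congrArg (Polynomial.eval 0) h2
  rw [Polynomial.eval_mul, Polynomial.eval_mul, Polynomial.eval_mul, Polynomial.eval_X, zero_mul,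
    Polynomial.eval_natCast, Polynomial.eval_prod, ← Polynomial.C_eq_algebraMap,
    Polynomial.eval_C] at h3
  revert h3
  refine mul_ne_zero ?_ (mul_ne_zero (mul_ne_zero ?_ ?_) ?_)
  · rw [Nat.cast_ne_zero]
    exact Finset.card_ne_zero_of_mem h0
  · rw [Nat.cast_ne_zero]; omega
  · exact Finset.prod_ne_zero_iff.2 fun j _ => neg_ne_zero.2 (hc j)
  · refine Finset.prod_ne_zero_iff.2 fun b hb => ?_
    rw [Phi, Polynomial.eval_add, Polynomial.eval_X, add_zero, ← Polynomial.C_eq_algebraMap,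
      Polynomial.eval_C, eval_FL]
    refine mul_ne_zero (mul_ne_zero ?_ (inv_ne_zero two_ne_zero))
      (hc2 b (Finset.mem_of_mem_erase hb) (Finset.ne_of_mem_erase hb))
    rw [sub_ne_zero]
    have : ((d - 1 : ℕ) : k) ≠ ((1 : ℕ) : k) := by
      rw [Ne, Nat.cast_inj]; omega
    simpa using this

/-- The special member. -/
lemma ct_zero {d : ℕ} (c : Fin n → k) :
    (fun s => Polynomial.eval 0 (ct d c (Polynomial.X : Polynomial k) s)) =
      ct d c (0 : k) := by
  funext s
  have h1 : map (Polynomial.evalRingHom (0 : k)) (ft d c (Polynomial.X : Polynomial k)) =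
      ft d c (0 : k) := by
    rw [ft, ft, map_add, map_map, map_mul, map_C, map_pow, map_X]
    have h2 : (Polynomial.evalRingHom (0 : k)).comp (algebraMap k (Polynomial k)) =
        algebraMap k k := by
      ext x; simp
    rw [h2]
    simp
  rw [ct, ct, ← h1, coeff_map]
  rfl

/-- **The family**. -/
theorem family [IsAlgClosed k] [CharZero k] {n d : ℕ} (hn : 1 ≤ n) (hd : 3 ≤ d) :
    ∃ γ : Mon (n + 1) d → Polynomial k,
      ¬ NonSing (grad fun s => Polynomial.eval 0 (γ s)) ∧
      (∀ g : MvPolynomial (Fin (n + 1)) k, g.IsHomogeneous ((n + 1) * (d - 2)) →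
        ∃ μ : k, g - C μ * X (Fin.last n) ^ ((n + 1) * (d - 2)) ∈
          J fun s => Polynomial.eval 0 (γ s)) ∧
      ∃ ω : MvPolynomial (Fin (n + 1)) (Polynomial k) → Polynomial k,
        (∀ g g', ω (g - g') = ω g - ω g') ∧ (∀ u g, ω (C u * g) = u * ω g) ∧
        (∀ x ∈ J γ, x.IsHomogeneous ((n + 1) * (d - 2)) → ω x = 0) ∧
        ¬ (Polynomial.X : Polynomial k) ^ 2 ∣ ω (Hess γ) := by
  obtain ⟨Ξ, h⟩ := exists_rootSet (k := k) (m := d - 1) (by omega)
  obtain ⟨c, hc, hc2⟩ := exists_c h n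
  refine ⟨ct d c (Polynomial.X : Polynomial k), ?_, ?_, om (d - 1) Ξ c, om_sub c, om_C_mul c,
    fun x hx hxh => om_J hd hn h c hx hxh, not_sq_dvd hd h c hc hc2⟩
  · rw [ct_zero]
    intro hns
    have h1 : (pt (0 : Fin n → k)) = 0 := by
      apply hns
      intro i
      refine Fin.lastCases ?_ (fun j => ?_) i
      · rw [grad_last hd, C_0, zero_mul, add_zero, Algebra.algebraMap_self, map_id, eval_FL]
        simp
      · rw [grad_castSucc hd, Algebra.algebraMap_self, map_id]
        exact eval_FF h c (Fintype.mem_piFinset.2 fun _ => h.zero_mem) j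
    have h2 := congrFun h1 (Fin.last n)
    rw [pt_last] at h2
    exact one_ne_zero h2
  · intro g hg
    rw [ct_zero]
    have h12 : d - 1 - 1 = d - 2 := by omega
    obtain ⟨μ, hμ⟩ := crit h hn hc hc2 (g := g) (by rw [h12]; exact hg)
    refine ⟨μ, ?_⟩
    rw [h12] at hμ
    have hJ : J (ct d c (0 : k)) = Ideal.span (Set.range (FF (d - 1) c)) ⊔
        Ideal.span {FL (d - 1) c} := by
      rw [J, span_range_succ]
      congr 3
      · funext j
        rw [grad_castSucc hd, Algebra.algebraMap_self, map_id]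
      · rw [grad_last hd, C_0, zero_mul, add_zero, Algebra.algebraMap_self, map_id]
    rw [hJ]
    exact hμ

end omega

end Pool.Agent.H687.AF
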