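import Mathlib
import Pool.Agent.H687.AF.Family

/-!
# Final assembly
-/

set_option autoImplicit false
set_option linter.unusedSectionVars false
set_option linter.unusedVariables false

open MvPolynomial

namespace Pool.Agent.H687.AF

section

variable {k : Type*} [Field k] [IsAlgClosed k] [CharZero k]

/-- An admissible denominator vanishing to order one along the family. -/
lemma exists_q0 {n d : ℕ} (hn : 1 ≤ n) (hd : 3 ≤ d) :
    ∃ q : MvPolynomial (Mon (n + 1) d) k, Adm q ∧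
      ∀ Δ : MvPolynomial (Mon (n + 1) d) k, (∀ c, ¬ NonSing (grad c) → eval c Δ = 0) →
        ¬ Δ ^ 2 ∣ q := by
  classical
  obtain ⟨γ, hsing, hcrit, ω, hsub, hmul, hJ, hH⟩ := family (k := k) hn hd
  set c₀ : Mon (n + 1) d → k := fun s => Polynomial.eval 0 (γ s) with hc₀
  set w : MvPolynomial (Fin (n + 1)) (MvPolynomial (Mon (n + 1) d) k) :=
    X (Fin.last n) ^ ((n + 1) * (d - 2)) with hw
  have hwhom : w.IsHomogeneous ((n + 1) * (d - 2)) := by
    have := (isHomogeneous_X (MvPolynomial (Mon (n + 1) d) k) (Fin.last n)).pow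
      ((n + 1) * (d - 2))
    rwa [one_mul] at this
  obtain ⟨r, hr, hsp⟩ := spread (c := c₀) (e := (n + 1) * (d - 2)) hwhom (by
    intro g hg
    obtain ⟨μ, hμ⟩ := hcrit g hg
    refine ⟨μ, ?_⟩
    rw [hw, map_pow, map_X]
    exact hμ)
  obtain ⟨h, hh⟩ := hsp (Hess (gen k (n + 1) d)) (Hess_hom _)
  refine ⟨r * h, ?_, ?_⟩
  · intro i
    obtain ⟨a, ha⟩ := hsp (monomial i.1 1) (isHomogeneous_monomial _ i.degree_eq)
    refine ⟨r * a, ?_⟩
    have h1 : C (r * h) * monomial i.1 1 - C (r * a) * Hess (gen k (n + 1) d) =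
        C h * (C r * monomial i.1 1 - C a * w) -
          C a * (C r * Hess (gen k (n + 1) d) - C h * w) := by
      rw [C_mul, C_mul]; ring
    rw [h1]
    exact Ideal.sub_mem _ (Ideal.mul_mem_left _ _ ha) (Ideal.mul_mem_left _ _ hh)
  · intro Δ hΔ hdvd
    set ev : MvPolynomial (Mon (n + 1) d) k →ₐ[k] Polynomial k := aeval γ with hev
    have hev0 : ∀ p : MvPolynomial (Mon (n + 1) d) k,
        Polynomial.eval 0 (ev p) = eval c₀ p := by
      intro p
      have h2 : ((Polynomial.aeval (0 : k) : Polynomial k →ₐ[k] k).comp ev) = aeval c₀ := by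
        apply MvPolynomial.algHom_ext
        intro u
        simp only [AlgHom.comp_apply, hev, aeval_X]
        rfl
      exact DFunLike.congr_fun h2 p
    have hX : Polynomial.X ∣ ev Δ := by
      rw [Polynomial.X_dvd_iff, Polynomial.coeff_zero_eq_eval_zero, hev0]
      exact hΔ c₀ hsing
    have hXr : ¬ Polynomial.X ∣ ev r := by
      rw [Polynomial.X_dvd_iff, Polynomial.coeff_zero_eq_eval_zero, hev0, hr]
      exact one_ne_zero
    have h1 : Polynomial.X ^ 2 ∣ ev r * ev h := by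
      rw [← map_mul]
      refine (pow_dvd_pow_of_dvd hX 2).trans ?_
      rw [← map_pow]
      exact map_dvd ev hdvd
    have h2 : Polynomial.X ^ 2 ∣ ev h :=
      Polynomial.prime_X.pow_dvd_of_dvd_mul_left 2 hXr h1
    have hγ : (fun s => (ev : MvPolynomial (Mon (n + 1) d) k →+* Polynomial k)
        (gen k (n + 1) d s)) = γ := by
      funext s
      simp [gen, hev]
    have h3 := map_mem_J (ev : MvPolynomial (Mon (n + 1) d) k →+* Polynomial k) hh
    rw [hγ, map_sub, map_mul, map_mul, map_C, map_C, map_Hess, hγ, hw, map_pow, map_X] at h3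
    have h4 : (C (ev r) * Hess γ - C (ev h) * X (Fin.last n) ^ ((n + 1) * (d - 2)) :
        MvPolynomial (Fin (n + 1)) (Polynomial k)).IsHomogeneous ((n + 1) * (d - 2)) := by
      refine IsHomogeneous.sub ?_ ?_
      · have := (isHomogeneous_C (Fin (n + 1)) (ev r)).mul (Hess_hom γ)
        rwa [zero_add] at this
      · have := (isHomogeneous_C (Fin (n + 1)) (ev h)).mul
          ((isHomogeneous_X (Polynomial k) (Fin.last n)).pow ((n + 1) * (d - 2)))
        rwa [zero_add, one_mul] at this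
    have h5 := hJ _ h3 h4
    rw [hsub, hmul, hmul, sub_eq_zero] at h5
    have h6 : ev r * ω (Hess γ) = ev h * ω (X (Fin.last n) ^ ((n + 1) * (d - 2))) := h5
    apply hH
    apply Polynomial.prime_X.pow_dvd_of_dvd_mul_left 2 hXr
    rw [h6]
    exact h2.mul_right _

/-- The number `μ_i(f)`: `z^i = μ_i(f) H_f` modulo the gradient ideal. -/
noncomputable def mu {n d : ℕ} (c : Mon n d → k) (i : Mon n (n * (d - 2))) : k :=
  Classical.epsilon fun x : k => monomial i.1 1 - C x * Hess c ∈ J c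

lemma mu_spec {n d : ℕ} (hd : 2 ≤ d) {c : Mon n d → k} (hc : NonSing (grad c))
    (i : Mon n (n * (d - 2))) : IsMu c i (mu c i) :=
  Classical.epsilon_spec (exists_mu hd hc (isHomogeneous_monomial (1 : k) i.degree_eq))

lemma mu_eq {n d : ℕ} (hd : 2 ≤ d) {c : Mon n d → k} (hc : NonSing (grad c))
    {i : Mon n (n * (d - 2))} {x : k} (hx : IsMu c i x) : mu c i = x := by
  have h : C (1 : k) * monomial i.1 1 - C x * Hess c ∈ J c := by
    rw [C_1, one_mul]; exact hx
  have := IsMu.unique hd hc (mu_spec hd hc i) h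
  rwa [one_mul] at this

/-- `Δ^p μ_i` is (the restriction to the nonsingular forms of) a polynomial function. -/
def IsPolynomialMultiple {n d : ℕ} (Δ : MvPolynomial (Mon n d) k) (i : Mon n (n * (d - 2)))
    (p : ℤ) : Prop :=
  ∃ P : MvPolynomial (Mon n d) k, ∀ c : Mon n d → k, NonSing (grad c) →
    eval c Δ ^ p * mu c i = eval c P

theorem exponent {n d : ℕ} (hn : 2 ≤ n) (hd : 3 ≤ d) {Δ : MvPolynomial (Mon n d) k}
    (hΔ : IsDiscriminant Δ) :
    IsGreatest {p : ℤ | ∃ i, IsLeast {q : ℤ | IsPolynomialMultiple Δ i q} p} 1 ∧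
      IsLeast {p : ℤ | ∀ i, IsPolynomialMultiple Δ i p} 1 := by
  obtain ⟨n, rfl⟩ : ∃ n', n = n' + 1 := ⟨n - 1, by omega⟩
  obtain ⟨q₀, hq₀, hsq⟩ := exists_q0 (k := k) (n := n) (by omega) hd
  have hone : ∀ i, IsPolynomialMultiple Δ i 1 := by
    intro i
    obtain ⟨Q, hQ⟩ := delta_mu (by omega) hΔ hq₀ (hsq Δ fun c hc => (hΔ.2 c).2 hc) i
    refine ⟨Q, fun c hc => ?_⟩
    rw [zpow_one]
    exact hQ c hc _ (mu_spec (by omega) hc i)
  obtain ⟨c₁, hc₁⟩ : ∃ c : Mon (n + 1) d → k, eval c Δ ≠ 0 := by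
    by_contra hcon
    push Not at hcon
    exact hΔ.1.ne_zero (MvPolynomial.funext fun c => by rw [hcon c, map_zero])
  have hns₁ : NonSing (grad c₁) := by
    by_contra h
    exact hc₁ ((hΔ.2 c₁).2 h)
  obtain ⟨i₀, hi₀⟩ := exists_not_poly (k := k) (n := n + 1) (d := d) (by omega) (by omega) hns₁
  have hlow : ∀ p : ℤ, IsPolynomialMultiple Δ i₀ p → 1 ≤ p := by
    intro p hp
    by_contra hlt
    push Not at hlt
    obtain ⟨e, he⟩ := Int.eq_ofNat_of_zero_le (by omega : 0 ≤ -p)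
    obtain ⟨P, hP⟩ := hp
    apply hi₀
    refine ⟨Δ ^ e * P, fun c hc x hx => ?_⟩
    have h1 := hP c hc
    rw [mu_eq (by omega) hc hx] at h1
    have hne : eval c Δ ≠ 0 := fun h => ((hΔ.2 c).1 h) hc
    rw [map_mul, ← h1, map_pow, ← mul_assoc, ← zpow_natCast, ← zpow_add₀ hne]
    have : (e : ℤ) + p = 0 := by omega
    rw [this, zpow_zero, one_mul]
  refine ⟨⟨⟨i₀, hone i₀, fun p hp => hlow p hp⟩, ?_⟩, hone, fun p hp => hlow p (hp i₀)⟩
  rintro p ⟨i, hp⟩
  exact hp.2 (hone i)

end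

end Pool.Agent.H687.AF
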