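import Mathlib
import Pool.Agent.H687.AF.Final

/-!
# Existence of the discriminant
-/

set_option autoImplicit false
set_option linter.unusedSectionVars false
set_option linter.unusedVariables false

open MvPolynomial

namespace Pool.Agent.H687.AF

section sub

variable {B : Type*} [CommRing B] {N : ℕ}

/-- Linear substitution. -/
noncomputable def subst (M : Matrix (Fin N) (Fin N) B) :
    MvPolynomial (Fin N) B →ₐ[B] MvPolynomial (Fin N) B :=
  aeval fun i => ∑ j, C (M i j) * X j

lemma subst_X (M : Matrix (Fin N) (Fin N) B) (i : Fin N) :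
    subst M (X i) = ∑ j, C (M i j) * X j := by
  simp [subst]

lemma subst_hom (M : Matrix (Fin N) (Fin N) B) {g : MvPolynomial (Fin N) B} {e : ℕ}
    (hg : g.IsHomogeneous e) : (subst M g).IsHomogeneous e := by
  have h := hg.aeval (fun i => ∑ j, C (M i j) * X j : Fin N → MvPolynomial (Fin N) B) (n := 1) (by
    intro i
    refine IsHomogeneous.sum _ _ _ fun j _ => ?_
    have := (isHomogeneous_C (Fin N) (M i j)).mul (isHomogeneous_X B j)
    rwa [zero_add] at this)
  rwa [one_mul] at h

lemma eval_subst (M : Matrix (Fin N) (Fin N) B) (a : Fin N → B) (g : MvPolynomial (Fin N) B) :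
    eval a (subst M g) = eval (M.mulVec a) g := by
  have h : ((aeval a : MvPolynomial (Fin N) B →ₐ[B] B).comp (subst M)) =
      (aeval (M.mulVec a)) := by
    apply MvPolynomial.algHom_ext
    intro i
    rw [AlgHom.comp_apply, subst_X, aeval_X, Matrix.mulVec, dotProduct, map_sum]
    simp
  exact DFunLike.congr_fun h g

lemma subst_subst (M M' : Matrix (Fin N) (Fin N) B) (g : MvPolynomial (Fin N) B) :
    subst M (subst M' g) = subst (M' * M) g := by
  have h : (subst M).comp (subst M') = subst (M' * M) := by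
    apply MvPolynomial.algHom_ext
    intro i
    rw [AlgHom.comp_apply, subst_X, subst_X, map_sum]
    have h1 : ∀ j, subst M (C (M' i j) * X j) = ∑ l, C (M' i j * M j l) * X l := by
      intro j
      rw [map_mul, subst_X, ← algebraMap_eq, AlgHom.commutes, algebraMap_eq, Finset.mul_sum]
      refine Finset.sum_congr rfl fun l _ => ?_
      rw [C_mul, mul_assoc]
    simp only [h1]
    rw [Finset.sum_comm]
    refine Finset.sum_congr rfl fun l _ => ?_
    rw [← Finset.sum_mul, Matrix.mul_apply, map_sum]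
  exact DFunLike.congr_fun h g

lemma subst_one (g : MvPolynomial (Fin N) B) : subst (1 : Matrix (Fin N) (Fin N) B) g = g := by
  have h : subst (1 : Matrix (Fin N) (Fin N) B) = AlgHom.id B _ := by
    apply MvPolynomial.algHom_ext
    intro i
    rw [subst_X, AlgHom.id_apply, Finset.sum_eq_single i]
    · simp
    · intro b _ hb
      rw [Matrix.one_apply_ne hb.symm, C_0, zero_mul]
    · intro h; exact absurd (Finset.mem_univ i) h
  rw [h]; rfl

lemma pderiv_subst (M : Matrix (Fin N) (Fin N) B) (j : Fin N) (g : MvPolynomial (Fin N) B) :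
    pderiv j (subst M g) = ∑ i, C (M i j) * subst M (pderiv i g) := by
  induction g using MvPolynomial.induction_on with
  | C a =>
    rw [← algebraMap_eq, AlgHom.commutes, algebraMap_eq]
    simp
  | add p q hp hq =>
    rw [map_add, map_add, hp, hq, ← Finset.sum_add_distrib]
    refine Finset.sum_congr rfl fun i _ => ?_
    rw [map_add, map_add, mul_add]
  | mul_X p l hp =>
    rw [map_mul, (pderiv j).leibniz, hp]
    have hX : pderiv j (subst M (X l)) = C (M l j) := by
      rw [subst_X, map_sum, Finset.sum_eq_single j]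
      · rw [pderiv_C_mul, pderiv_X_self, mul_one]
      · intro b _ hb
        rw [pderiv_C_mul, pderiv_X_of_ne hb, mul_zero]
      · intro h; exact absurd (Finset.mem_univ j) h
    rw [hX]
    have h1 : ∀ i, C (M i j) * subst M (pderiv i (p * X l)) =
        (if i = l then subst M p * C (M l j) else 0) +
          subst M (X l) * (C (M i j) * subst M (pderiv i p)) := by
      intro i
      rw [(pderiv i).leibniz, map_add, smul_eq_mul, smul_eq_mul, map_mul, map_mul]
      by_cases hil : i = l
      · subst hil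
        rw [pderiv_X_self, map_one, if_pos rfl]
        ring
      · rw [pderiv_X_of_ne (Ne.symm hil), map_zero, if_neg hil]
        ring
    simp only [h1]
    rw [Finset.sum_add_distrib, Finset.sum_ite_eq' Finset.univ l, if_pos (Finset.mem_univ l),
      ← Finset.mul_sum, smul_eq_mul, smul_eq_mul]

lemma map_subst {B' : Type*} [CommRing B'] (f : B →+* B') (M : Matrix (Fin N) (Fin N) B)
    (g : MvPolynomial (Fin N) B) : map f (subst M g) = subst (M.map f) (map f g) := by
  have h : (map f).comp (subst M : MvPolynomial (Fin N) B →+* MvPolynomial (Fin N) B) =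
      (subst (M.map f) : MvPolynomial (Fin N) B' →+* MvPolynomial (Fin N) B').comp (map f) := by
    apply MvPolynomial.ringHom_ext
    · intro r
      simp only [RingHom.comp_apply, map_C]
      have h1 : (subst M : MvPolynomial (Fin N) B →+* MvPolynomial (Fin N) B) (C r) = C r :=
        (subst M).commutes r
      have h2 : (subst (M.map f) : MvPolynomial (Fin N) B' →+* MvPolynomial (Fin N) B') (C (f r))
          = C (f r) := (subst (M.map f)).commutes (f r)
      rw [h1, h2, map_C]
    · intro i
      simp only [RingHom.comp_apply, map_X]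
      show map f (subst M (X i)) = subst (M.map f) (X i)
      rw [subst_X, subst_X, map_sum]
      simp
  exact DFunLike.congr_fun h g

end sub

section proj

variable {k : Type*} [Field k] [CharZero k] {n : ℕ} {B : Type*} [CommRing B] [Algebra k B]

/-- The last basis vector. -/
def ee (n : ℕ) (B : Type*) [CommRing B] : Fin (n + 1) → B := Pi.single (Fin.last n) 1

/-- The correction forms. -/
noncomputable def ww (k : Type*) [Field k] (n d : ℕ) (j : Fin (n + 1)) :
    MvPolynomial (Fin (n + 1)) k :=
  if j = Fin.last n then C (d : k)⁻¹ * X (Fin.last n) ^ d else X j * X (Fin.last n) ^ (d - 1)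

lemma ww_hom {d : ℕ} (hd : 1 ≤ d) (j : Fin (n + 1)) : (ww k n d j).IsHomogeneous d := by
  rw [ww]
  split_ifs with h
  · have := (isHomogeneous_C (Fin (n + 1)) ((d : k)⁻¹)).mul
      ((isHomogeneous_X k (Fin.last n)).pow d)
    rwa [zero_add, one_mul] at this
  · have := (isHomogeneous_X k j).mul ((isHomogeneous_X k (Fin.last n)).pow (d - 1))
    have h2 : 1 + 1 * (d - 1) = d := by omega
    rwa [h2] at this

lemma eval_pderiv_ww {d : ℕ} (hd : 2 ≤ d) (i j : Fin (n + 1)) :
    eval (ee n k) (pderiv i (ww k n d j)) = if i = j then 1 else 0 := by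
  have hd0 : (d : k) ≠ 0 := by rw [Nat.cast_ne_zero]; omega
  have hel : ee n k (Fin.last n) = 1 := by simp [ee]
  have hej : ∀ j, j ≠ Fin.last n → ee n k j = 0 := fun j hj => by simp [ee, hj]
  rw [ww]
  split_ifs with hj hij hij
  · subst hj; subst hij
    rw [pderiv_C_mul, (pderiv _).leibniz_pow, pderiv_X_self]
    simp [hel, hd0]
  · subst hj
    rw [pderiv_C_mul, (pderiv _).leibniz_pow, pderiv_X_of_ne (Ne.symm hij)]
    simp
  · subst hij
    rw [(pderiv i).leibniz, (pderiv i).leibniz_pow, pderiv_X_self,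
      pderiv_X_of_ne (i := i) (j := Fin.last n) (Ne.symm hj)]
    simp [hel]
  · rw [(pderiv i).leibniz, (pderiv i).leibniz_pow, pderiv_X_of_ne (Ne.symm hij)]
    by_cases hi : i = Fin.last n
    · subst hi
      simp [hej j hj]
    · rw [pderiv_X_of_ne (i := i) (j := Fin.last n) (Ne.symm hi)]
      simp

/-- Projection to the forms singular at the last basis vector. -/
noncomputable def prj (k : Type*) [Field k] {B : Type*} [CommRing B] [Algebra k B] {n : ℕ}
    (d : ℕ) (h : MvPolynomial (Fin (n + 1)) B) : MvPolynomial (Fin (n + 1)) B :=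
  h - ∑ j, C (eval (ee n B) (pderiv j h)) * map (algebraMap k B) (ww k n d j)

lemma prj_hom {d : ℕ} (hd : 1 ≤ d) {h : MvPolynomial (Fin (n + 1)) B} (hh : h.IsHomogeneous d) :
    (prj k d h).IsHomogeneous d := by
  refine hh.sub (IsHomogeneous.sum _ _ _ fun j _ => ?_)
  have := (isHomogeneous_C (Fin (n + 1)) (eval (ee n B) (pderiv j h))).mul
    ((ww_hom (k := k) hd j).map (algebraMap k B))
  rwa [zero_add] at this

lemma map_prj {d : ℕ} {B' : Type*} [CommRing B'] [Algebra k B'] (f : B →ₐ[k] B')
    (h : MvPolynomial (Fin (n + 1)) B) :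
    map (f : B →+* B') (prj k d h) = prj k d (map (f : B →+* B') h) := by
  rw [prj, prj, map_sub, map_sum]
  congr 1
  refine Finset.sum_congr rfl fun j _ => ?_
  rw [map_mul, map_C, map_map, AlgHom.comp_algebraMap, pderiv_map, eval_map]
  congr 2
  rw [eval₂_comp]
  congr 1
  funext i
  simp only [Function.comp, ee]
  by_cases hi : i = Fin.last n
  · subst hi; simp
  · simp [hi]

lemma prj_sing {d : ℕ} (hd : 2 ≤ d) (h : MvPolynomial (Fin (n + 1)) k) (i : Fin (n + 1)) :
    eval (ee n k) (pderiv i (prj k d h)) = 0 := by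
  rw [prj, map_sub, map_sum, map_sub, map_sum, Algebra.algebraMap_self, Finset.sum_eq_single i]
  · rw [map_id, pderiv_C_mul, map_mul, eval_C, eval_pderiv_ww hd, if_pos rfl, mul_one, sub_self]
  · intro b _ hb
    rw [map_id, pderiv_C_mul, map_mul, eval_pderiv_ww hd, if_neg hb.symm, mul_zero]
  · intro h; exact absurd (Finset.mem_univ i) h

lemma prj_id {d : ℕ} {h : MvPolynomial (Fin (n + 1)) k}
    (hh : ∀ j, eval (ee n k) (pderiv j h) = 0) : prj k d h = h := by
  rw [prj]
  simp [hh]

end proj

section universal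

variable (k : Type*) [Field k] [CharZero k] (n d : ℕ)

/-- The parameters. -/
abbrev Par : Type := (Fin (n + 1) × Fin (n + 1)) ⊕ Mon (n + 1) d

/-- The universal singular form. -/
noncomputable def WW : MvPolynomial (Fin (n + 1)) (MvPolynomial (Par n d) k) :=
  subst (Matrix.of fun i j => X (Sum.inl (i, j)))
    (prj k d (form fun s : Mon (n + 1) d => X (Sum.inr s)))

/-- Its coefficients. -/
noncomputable def Th (s : Mon (n + 1) d) : MvPolynomial (Par n d) k := coeff s.1 (WW k n d)

variable {k n d}

lemma eval_Th (p : Par n d → k) : (fun s => eval p (Th k n d s)) = fun s : Mon (n + 1) d =>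
    coeff s.1 (subst (Matrix.of fun i j => p (Sum.inl (i, j)))
      (prj k d (form fun s : Mon (n + 1) d => p (Sum.inr s)))) := by
  funext s
  rw [Th, ← coeff_map, WW, map_subst]
  have h1 : (eval p : MvPolynomial (Par n d) k →+* k) =
      ((aeval p : MvPolynomial (Par n d) k →ₐ[k] k) : MvPolynomial (Par n d) k →+* k) := rfl
  have h2 : (Matrix.of fun i j => (X (Sum.inl (i, j)) : MvPolynomial (Par n d) k)).map (eval p) =
      Matrix.of fun i j => p (Sum.inl (i, j)) := by
    ext1 i j; simp
  rw [h2, h1, map_prj, map_form]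
  simp

lemma form_eval_Th (hd : 1 ≤ d) (p : Par n d → k) : form (fun s => eval p (Th k n d s)) =
    subst (Matrix.of fun i j => p (Sum.inl (i, j)))
      (prj k d (form fun s : Mon (n + 1) d => p (Sum.inr s))) := by
  rw [eval_Th]
  exact form_coeff (subst_hom _ (prj_hom hd (form_hom _)))

lemma hom_eval_zero {e : ℕ} (he : 1 ≤ e) {g : MvPolynomial (Fin (n + 1)) k}
    (hg : g.IsHomogeneous e) : eval 0 g = 0 := by
  rw [MvPolynomial.eval_zero, constantCoeff_eq]
  exact hg.coeff_eq_zero (by simp; omega)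

/-- Every value of the parametrization is singular. -/
lemma Th_sing (hd : 2 ≤ d) (p : Par n d → k) :
    ¬ NonSing (grad fun s => eval p (Th k n d s)) := by
  classical
  set M : Matrix (Fin (n + 1)) (Fin (n + 1)) k := Matrix.of fun i j => p (Sum.inl (i, j)) with hM
  set h : MvPolynomial (Fin (n + 1)) k := prj k d (form fun s : Mon (n + 1) d => p (Sum.inr s))
    with hh
  have hhom : h.IsHomogeneous d := prj_hom (by omega) (form_hom _)
  obtain ⟨v, hv0, hv⟩ : ∃ v : Fin (n + 1) → k, v ≠ 0 ∧ (M.mulVec v = 0 ∨ M.mulVec v = ee n k) := by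
    by_cases hdet : M.det = 0
    · obtain ⟨v, hv0, hv⟩ := Matrix.exists_mulVec_eq_zero_iff.2 hdet
      exact ⟨v, hv0, Or.inl hv⟩
    · refine ⟨M⁻¹.mulVec (ee n k), ?_, Or.inr ?_⟩
      · intro h0
        have h1 : M.mulVec (M⁻¹.mulVec (ee n k)) = ee n k := by
          rw [Matrix.mulVec_mulVec, Matrix.mul_nonsing_inv _ (isUnit_iff_ne_zero.2 hdet),
            Matrix.one_mulVec]
        rw [h0, Matrix.mulVec_zero] at h1
        have h2 := congrFun h1 (Fin.last n)
        simp [ee] at h2
      · rw [Matrix.mulVec_mulVec, Matrix.mul_nonsing_inv _ (isUnit_iff_ne_zero.2 hdet),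
          Matrix.one_mulVec]
  intro hns
  apply hv0
  apply hns
  intro j
  rw [grad, form_eval_Th (by omega), pderiv_subst, map_sum]
  refine Finset.sum_eq_zero fun i _ => ?_
  rw [map_mul, eval_subst]
  rcases hv with hv | hv
  · rw [hv, hom_eval_zero (e := d - 1) (by omega) hhom.pderiv, mul_zero]
  · rw [hv, prj_sing hd, mul_zero]

/-- Every singular form is a value of the parametrization. -/
lemma exists_Th (hd : 2 ≤ d) {c : Mon (n + 1) d → k} (hc : ¬ NonSing (grad c)) :
    ∃ p : Par n d → k, (fun s => eval p (Th k n d s)) = c := by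
  classical
  rw [NonSing] at hc
  push Not at hc
  obtain ⟨a, ha, ha0⟩ := hc
  obtain ⟨j, hj⟩ := Function.ne_iff.1 ha0
  set N : Matrix (Fin (n + 1)) (Fin (n + 1)) k :=
    ((1 : Matrix (Fin (n + 1)) (Fin (n + 1)) k).updateCol j a).submatrix id
      (Equiv.swap j (Fin.last n)) with hN
  have hdet : N.det ≠ 0 := by
    rw [hN, Matrix.det_permute', ← Matrix.cramer_apply, Matrix.cramer_one]
    refine mul_ne_zero ?_ hj
    rcases Int.units_eq_one_or (Equiv.Perm.sign (Equiv.swap j (Fin.last n))) with h | h <;>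
      simp [h]
  have hNe : N.mulVec (ee n k) = a := by
    ext i
    rw [ee, Matrix.mulVec_single_one, hN]
    simp [Matrix.col]
  set h := subst N (form c) with hh
  have hhhom : h.IsHomogeneous d := subst_hom N (form_hom c)
  have hsing : ∀ i, eval (ee n k) (pderiv i h) = 0 := by
    intro i
    rw [hh, pderiv_subst, map_sum]
    refine Finset.sum_eq_zero fun l _ => ?_
    rw [map_mul, eval_subst, hNe]
    have := ha l
    rw [grad] at this
    rw [this, mul_zero]
  refine ⟨Sum.elim (fun ij => N⁻¹ ij.1 ij.2) (fun s => coeff s.1 h), ?_⟩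
  have h1 : form (fun s => eval (Sum.elim (fun ij => N⁻¹ ij.1 ij.2) (fun s : Mon (n + 1) d =>
      coeff s.1 h)) (Th k n d s)) = form c := by
    rw [form_eval_Th (by omega)]
    simp only [Sum.elim_inl, Sum.elim_inr]
    rw [form_coeff hhhom, prj_id hsing, hh, subst_subst]
    have h2 : N * (Matrix.of fun i j => N⁻¹ i j) = 1 :=
      Matrix.mul_nonsing_inv _ (isUnit_iff_ne_zero.2 hdet)
    rw [h2, subst_one]
  funext s
  rw [← coeff_form c s, ← h1, coeff_form]

end universal

section existence

variable {k : Type*} [Field k] [IsAlgClosed k] [CharZero k]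

/-- The discriminant exists. -/
theorem exists_discriminant {n d : ℕ} (hn : 2 ≤ n) (hd : 3 ≤ d) :
    ∃ Δ : MvPolynomial (Mon n d) k, IsDiscriminant Δ := by
  obtain ⟨n, rfl⟩ : ∃ n', n = n' + 1 := ⟨n - 1, by omega⟩
  obtain ⟨q₀, hq₀, hsq⟩ := exists_q0 (k := k) (n := n) (by omega) hd
  have hq0 : q₀ ≠ 0 := by
    intro h0
    refine hsq 0 (fun c _ => by rw [map_zero]) ?_
    rw [h0]; exact dvd_zero _
  have hd2 : 2 ≤ d := by omega
  obtain ⟨c₁, hc₁⟩ : ∃ c : Mon (n + 1) d → k, eval c q₀ ≠ 0 := by
    by_contra hcon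
    push Not at hcon
    exact hq0 (MvPolynomial.funext fun c => by rw [hcon c, map_zero])
  have hns₁ : NonSing (grad c₁) := by
    by_contra h
    exact hc₁ (adm_sing hq₀ h)
  have heq : ∀ p q : MvPolynomial (Mon (n + 1) d) k,
      (∀ c, NonSing (grad c) → eval c p = eval c q) → p = q := by
    intro p q hpq
    have h1 : q₀ * (p - q) = 0 := by
      apply MvPolynomial.funext
      intro c
      rw [map_mul, map_sub, map_zero]
      by_cases hc : NonSing (grad c)
      · rw [hpq c hc, sub_self, mul_zero]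
      · rw [adm_sing hq₀ hc, zero_mul]
    exact sub_eq_zero.1 ((mul_eq_zero.1 h1).resolve_left hq0)
  obtain ⟨i, hi⟩ := exists_not_poly (k := k) (n := n + 1) (d := d) (by omega) hd2 hns₁
  obtain ⟨P₀, hP₀⟩ := hq₀ i
  obtain ⟨A, B, g, hAB, hgA, hgB⟩ :
      ∃ A B g : MvPolynomial (Mon (n + 1) d) k, IsRelPrime A B ∧ g * A = P₀ ∧ g * B = q₀ := by
    obtain ⟨A, B, g, h1, h2, h3⟩ :=
      UniqueFactorizationMonoid.exists_reduced_factors' P₀ q₀ hq0
    exact ⟨A, B, g, h1, h2, h3⟩
  have hg0 : g ≠ 0 := by
    rintro rfl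
    exact hq0 (by rw [← hgB, zero_mul])
  have hB0 : B ≠ 0 := by
    rintro rfl
    exact hq0 (by rw [← hgB, mul_zero])
  have key : ∀ q P : MvPolynomial (Mon (n + 1) d) k,
      C q * monomial i.1 1 - C P * Hess (gen k (n + 1) d) ∈ J (gen k (n + 1) d) →
        q * A = B * P := by
    intro q P hP
    have h1 : q * P₀ = q₀ * P := by
      apply heq
      intro c hc
      obtain ⟨x, hx⟩ := exists_mu hd2 hc (isHomogeneous_monomial (1 : k) i.degree_eq)
      have h2 := IsMu.unique hd2 hc hx (spec hP c)
      have h3 := IsMu.unique hd2 hc hx (spec hP₀ c)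
      rw [map_mul, map_mul, ← h2, ← h3]
      ring
    apply mul_left_cancel₀ hg0
    rw [← hgA, ← hgB] at h1
    linear_combination h1
  have hBdvd : ∀ q, Adm q → B ∣ q := by
    intro q hq
    obtain ⟨P, hP⟩ := hq i
    have h1 := key q P hP
    exact hAB.symm.dvd_of_dvd_mul_right ⟨P, h1⟩
  have hBmu : ∀ c, NonSing (grad c) → ∀ x, IsMu c i x → eval c A = eval c B * x := by
    intro c hc x hx
    obtain ⟨q, hq, hqc⟩ := adm_of_nonsing hd2 hc
    obtain ⟨P, hP⟩ := hq i
    have h1 := IsMu.unique hd2 hc hx (spec hP c)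
    have h2 := congrArg (eval c) (key q P hP)
    rw [map_mul, map_mul, hqc, one_mul] at h2
    rw [hqc, one_mul] at h1
    rw [h2, h1]
  have hBu : ¬ IsUnit B := by
    intro hu
    obtain ⟨u, hu⟩ := hu
    apply hi
    refine ⟨((u⁻¹ : (MvPolynomial (Mon (n + 1) d) k)ˣ) : MvPolynomial (Mon (n + 1) d) k) * A,
      fun c hc x hx => ?_⟩
    rw [map_mul, hBmu c hc x hx, ← mul_assoc, ← map_mul, ← hu, Units.inv_mul, map_one, one_mul]
  obtain ⟨p, hp, hpB⟩ := WfDvdMonoid.exists_irreducible_factor hBu hB0
  have hpsing : ∀ c, eval c p = 0 → ¬ NonSing (grad c) := by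
    intro c hc hns
    obtain ⟨q, hq, hqc⟩ := adm_of_nonsing hd2 hns
    obtain ⟨t, ht⟩ := hpB.trans (hBdvd q hq)
    rw [ht, map_mul, hc, zero_mul] at hqc
    exact zero_ne_one hqc
  -- the prime ideal of the singular locus
  set Θ : MvPolynomial (Mon (n + 1) d) k →ₐ[k] MvPolynomial (Par n d) k := aeval (Th k n d)
    with hΘ
  have hΘev : ∀ (t : Par n d → k) (q : MvPolynomial (Mon (n + 1) d) k),
      eval t (Θ q) = eval (fun s => eval t (Th k n d s)) q := by
    intro t q
    have h2 : ((aeval t : MvPolynomial (Par n d) k →ₐ[k] k).comp Θ) =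
        aeval (fun s => eval t (Th k n d s)) := by
      apply MvPolynomial.algHom_ext
      intro u
      simp only [AlgHom.comp_apply, hΘ, aeval_X]
      rfl
    exact DFunLike.congr_fun h2 q
  have hker : ∀ q : MvPolynomial (Mon (n + 1) d) k, q ∈ RingHom.ker Θ ↔
      ∀ c, ¬ NonSing (grad c) → eval c q = 0 := by
    intro q
    rw [RingHom.mem_ker]
    constructor
    · intro hq c hc
      obtain ⟨t, ht⟩ := exists_Th hd2 hc
      rw [← ht, ← hΘev, hq, map_zero]
    · intro hq
      apply MvPolynomial.funext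
      intro t
      rw [hΘev, map_zero]
      exact hq _ (Th_sing hd2 t)
  have hprime : (RingHom.ker Θ).IsPrime := RingHom.ker_isPrime Θ
  have hne : RingHom.ker Θ ≠ ⊥ := by
    intro h
    apply hq0
    rw [← Ideal.mem_bot, ← h, hker]
    intro c hc
    exact adm_sing hq₀ hc
  obtain ⟨x, hx, hxp⟩ := Ideal.IsPrime.exists_mem_prime_of_ne_bot hprime hne
  have h1 : p ∣ x := by
    apply dvd_of_eval hp.prime
    intro c hc
    exact (hker x).1 hx c (hpsing c hc)
  have h2 : x ∣ p := (hp.dvd_comm hxp.irreducible).1 h1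
  have h3 : p ∈ RingHom.ker Θ := Ideal.mem_of_dvd _ h2 hx
  exact ⟨p, hp, fun c => ⟨hpsing c, fun hc => (hker p).1 h3 c hc⟩⟩

end existence

end Pool.Agent.H687.AF
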